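import Pool.Agent.W2helper96.QP.Pairs

/-!
# Counting the periodic points of `(x ^ d + b) / v ^ 3`, `4 ∣ d`
-/

set_option autoImplicit false

namespace Pool.Agent.W2helper96.QP

open Finset Pool.Agent.T6.H62.UB Pool.Agent.T6.H62.PP Pool.Agent.T6.H62.PP.G

theorem exists_col1 (p : ℕ) [Fact p.Prime] :
    ∃ c : ZMod p → Fin 4, ∀ a b, a ^ 4 = b ^ 4 → c a = c b → a = b := by
  classical
  have hcard : ∀ y : ZMod p, (univ.filter fun a : ZMod p => a ^ 4 = y).card ≤ 4 := by
    intro y
    have h1 : (univ.filter fun a : ZMod p => a ^ 4 = y) ⊆ (Polynomial.nthRoots 4 y).toFinset := by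
      intro a ha
      rw [mem_filter] at ha
      rw [Multiset.mem_toFinset, Polynomial.mem_nthRoots (by norm_num)]
      exact ha.2
    exact (card_le_card h1).trans ((Multiset.toFinset_card_le _).trans (Polynomial.card_nthRoots 4 y))
  have hg : ∀ y : ZMod p, ∃ g : ZMod p → Fin 4, ∀ a b, a ^ 4 = y → b ^ 4 = y → g a = g b → a = b := by
    intro y
    set s := univ.filter fun a : ZMod p => a ^ 4 = y with hs
    refine ⟨fun a => if h : a ∈ s then Fin.castLE (hcard y) (s.equivFin ⟨a, h⟩) else 0, ?_⟩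
    intro a b ha hb hab
    have ha' : a ∈ s := by rw [hs, mem_filter]; exact ⟨mem_univ _, ha⟩
    have hb' : b ∈ s := by rw [hs, mem_filter]; exact ⟨mem_univ _, hb⟩
    simp only [dif_pos ha', dif_pos hb'] at hab
    have h1 := s.equivFin.injective (Fin.castLE_injective _ hab)
    exact congrArg Subtype.val h1
  choose g hg using hg
  refine ⟨fun a => g (a ^ 4) a, ?_⟩
  intro a b hab h
  simp only [hab] at h
  exact hg _ a b hab rfl h

theorem exists_col : ∃ c : ℕ → ℤ → Fin 4, ∀ p : ℕ, p.Prime → ∀ u w : ℤ,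
    (p : ℤ) ∣ u ^ 4 - w ^ 4 → c p u = c p w → (p : ℤ) ∣ u - w := by
  have h : ∀ p : ℕ, ∃ c : ℤ → Fin 4, p.Prime → ∀ u w : ℤ,
      (p : ℤ) ∣ u ^ 4 - w ^ 4 → c u = c w → (p : ℤ) ∣ u - w := by
    intro p
    by_cases hp : p.Prime
    · have := Fact.mk hp
      obtain ⟨c, hc⟩ := exists_col1 p
      refine ⟨fun u => c (u : ZMod p), fun _ u w h1 h2 => ?_⟩
      rw [← ZMod.intCast_zmod_eq_zero_iff_dvd] at h1 ⊢
      push_cast at h1 ⊢
      exact sub_eq_zero.2 (hc _ _ (sub_eq_zero.1 h1) h2)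
    · exact ⟨fun _ => 0, fun h => absurd h hp⟩
  choose c hc using h
  exact ⟨c, hc⟩

section

variable {d v : ℕ} {b : ℤ} {O : Finset ℤ} {φ : ℤ → ℤ}

/-- **The number of periodic points.** -/
theorem per_card (h : Sys d 1 b (v ^ 3) O φ) (hd : 2 ≤ d) (h4 : 4 ∣ d) (hv : 0 < v) :
    (perSet φ O).card ≤ 2 * 4 ^ (bad d v).card := by
  classical
  have hde : Even d := (show (2 : ℕ) ∣ 4 by norm_num).trans h4 |> even_iff_two_dvd.2
  by_cases h2v : 2 ∣ v
  · -- `v` even
    have hodd : ∀ u ∈ O, u % 2 = 1 := by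
      intro u hu
      have := not_dvd_of_mem h hd Nat.prime_two h2v hu
      push_cast at this
      omega
    obtain ⟨c, hc⟩ := exists_col
    have hinj : Set.InjOn (fun u : ℤ => ((decide (u % 4 = 1), fun p : bad d v => c p u) :
        Bool × (bad d v → Fin 4))) (perSet φ O : Set ℤ) := by
      intro u hu w hw huw
      obtain ⟨huO, pu⟩ := mem_perSet.1 (mem_coe.1 hu)
      obtain ⟨hwO, pw⟩ := mem_perSet.1 (mem_coe.1 hw)
      by_contra hne
      simp only [Prod.mk.injEq, decide_eq_decide] at huw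
      obtain ⟨e1, e2⟩ := huw
      have ho1 := hodd u huO
      have ho2 := hodd w hwO
      have h5 : (u - w) % 4 = 0 := by
        by_cases h6 : u % 4 = 1
        · have := e1.1 h6
          omega
        · have : ¬ w % 4 = 1 := fun h7 => h6 (e1.2 h7)
          omega
      have hcases : ∀ p : ℕ, p.Prime → p ≠ 2 → p ∈ bad d v →
          ¬ (p : ℤ) ∣ u + w ∧ ¬ (p : ℤ) ∣ u ^ 2 + w ^ 2 := by
        intro p hp hp2 hpb
        have hpv : p ∣ v := (mem_bad.1 hpb).1.2.1
        have hpi := Nat.prime_iff_prime_int.1 hp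
        have hpu := not_dvd_of_mem h hd hp hpv huO
        have hp2' : ¬ (p : ℤ) ∣ 2 := by
          intro h6
          have h7 : p ∣ 2 := by exact_mod_cast h6
          exact hp2 ((Nat.prime_dvd_prime_iff_eq hp Nat.prime_two).1 h7)
        have hcol : c p u = c p w := congrFun e2 ⟨p, hpb⟩
        constructor
        · intro h6
          have h7 := hc p hp u w (dvd_trans h6 ⟨(u - w) * (u ^ 2 + w ^ 2), by ring⟩) hcol
          have h8 : (p : ℤ) ∣ 2 * u := by
            have : 2 * u = (u + w) + (u - w) := by ring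
            rw [this]; exact dvd_add h6 h7
          exact hpu ((hpi.dvd_or_dvd h8).resolve_left hp2')
        · intro h6
          have h7 := hc p hp u w (dvd_trans h6 ⟨(u - w) * (u + w), by ring⟩) hcol
          have h8 : (p : ℤ) ∣ 2 * u ^ 2 := by
            have : 2 * u ^ 2 = (u ^ 2 + w ^ 2) + (u - w) * (u + w) := by ring
            rw [this]; exact dvd_add h6 (h7.mul_right _)
          exact hpu (hpi.dvd_of_dvd_pow ((hpi.dvd_or_dvd h8).resolve_left hp2'))
      have hvals : ∀ p : ℕ, p.Prime → p ≠ 2 →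
          3 ∣ padicValInt p (u + w) ∧ 3 ∣ padicValInt p (u ^ 2 + w ^ 2) := by
        intro p hp hp2
        by_cases hpv : p ∣ v
        · by_cases hpb : p ∈ bad d v
          · obtain ⟨h6, h7⟩ := hcases p hp hp2 hpb
            rw [padicValInt.eq_zero_of_not_dvd h6, padicValInt.eq_zero_of_not_dvd h7]
            exact ⟨dvd_zero _, dvd_zero _⟩
          · exact (per_bad h hd h4 hv huO hwO pu pw hne hp hp2 hpv
              (good_of_not_mem hp hpv hv hp2 hpb)).2
        · obtain ⟨h6, h7⟩ := per_good h h4 hv huO hwO pu pw hne hp hpv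
          rw [padicValInt.eq_zero_of_not_dvd h6, padicValInt.eq_zero_of_not_dvd h7]
          exact ⟨dvd_zero _, dvd_zero _⟩
      exact hne (pair_even ho1 h5 (per_coprime h hd h4 hv huO hwO pu pw hne)
        (fun p hp hp2 => (hvals p hp hp2).1) (fun p hp hp2 => (hvals p hp hp2).2))
    have h5 := card_le_card_of_injOn _ (fun u _ => mem_coe.2 (mem_univ _)) hinj
    rw [card_univ, Fintype.card_prod, Fintype.card_bool, Fintype.card_fun, Fintype.card_fin,
      Fintype.card_coe] at h5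
    exact h5
  · -- `v` odd
    have hinj : Set.InjOn (fun u : ℤ => decide (u % 2 = 1)) (perSet φ O : Set ℤ) := by
      intro u hu w hw huw
      obtain ⟨huO, pu⟩ := mem_perSet.1 (mem_coe.1 hu)
      obtain ⟨hwO, pw⟩ := mem_perSet.1 (mem_coe.1 hw)
      by_contra hne
      simp only [decide_eq_decide] at huw
      have h6 := (per_good h h4 hv huO hwO pu pw hne Nat.prime_two h2v).1
      push_cast at h6
      apply h6
      by_cases h7 : u % 2 = 1
      · have := huw.1 h7
        omega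
      · have : ¬ w % 2 = 1 := fun h8 => h7 (huw.2 h8)
        omega
    have h5 := card_le_card_of_injOn _ (fun u _ => mem_coe.2 (mem_univ _)) hinj
    rw [card_univ, Fintype.card_bool] at h5
    have h6 : 1 ≤ 4 ^ (bad d v).card := Nat.one_le_pow _ _ (by norm_num)
    omega

end

section general

variable {d V : ℕ} {A b : ℤ} {O : Finset ℤ} {φ : ℤ → ℤ}

/-- A point which is not periodic runs into `-w` for a periodic point `w`, where `-w` is not periodic. -/
theorem exists_tail' (h : Sys d A b V O φ) (hA : A ≠ 0) (hde : Even d) (hd : 2 ≤ d)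
    {u : ℤ} (hu : u ∈ O) (hev : ∃ m n : ℕ, m < n ∧ φ^[m] u = φ^[n] u) (hnp : ¬ Per φ u) :
    ∃ (k : ℕ) (w : ℤ), w ∈ O ∧ Per φ w ∧ φ^[k] u = -w ∧ ¬ Per φ (-w) := by
  classical
  obtain ⟨m, n, hmn, heq⟩ := hev
  have hex : ∃ j : ℕ, Per φ (φ^[j] u) := by
    refine ⟨m, n - m, by omega, ?_⟩
    rw [← Function.iterate_add_apply, Nat.sub_add_cancel hmn.le, heq]
  set j := Nat.find hex with hj
  have hjs : Per φ (φ^[j] u) := Nat.find_spec hex
  have hj0 : j ≠ 0 := by
    intro h0
    rw [h0] at hjs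
    exact hnp hjs
  obtain ⟨k, hk⟩ : ∃ k, j = k + 1 := ⟨j - 1, by omega⟩
  have hknot : ¬ Per φ (φ^[k] u) := Nat.find_min hex (by omega)
  rw [hk] at hjs
  obtain ⟨N, hN, hper⟩ := id hjs
  set z := φ^[k + 1] u with hz
  set w := φ^[N - 1] z with hw
  have hwO : w ∈ O := h.iter_mem (h.iter_mem hu _) _
  have hwP : Per φ w := hjs.iter _
  have hφw : φ w = z := by
    rw [hw, ← Function.iterate_succ_apply' φ, Nat.succ_eq_add_one, Nat.sub_add_cancel hN]
    exact hper
  have hφs : φ (φ^[k] u) = z := by rw [hz, Function.iterate_succ_apply']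
  have hsO : φ^[k] u ∈ O := h.iter_mem hu k
  have h1 := eqn_subA h hsO hwO
  rw [hφs, hφw, sub_self, mul_zero] at h1
  have h2 : (φ^[k] u) ^ d = w ^ d := by
    rcases mul_eq_zero.1 h1.symm with h4 | h4
    · exact absurd h4 hA
    · omega
  have h3 : |φ^[k] u| = |w| := by
    have h4 : |φ^[k] u| ^ d = |w| ^ d := by rw [hde.pow_abs, hde.pow_abs, h2]
    exact (pow_left_inj₀ (abs_nonneg _) (abs_nonneg _) (by omega)).1 h4
  rcases abs_eq_abs.1 h3 with h5 | h5
  · exact absurd (h5 ▸ hwP) hknot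
  · exact ⟨k, w, hwO, hwP, h5, h5 ▸ hknot⟩

/-- Either there are at most twice as many points as periodic ones, or there is a point of level two. -/
theorem level_two (h : Sys d A b V O φ) (hA : A ≠ 0) (hde : Even d) (hd : 2 ≤ d)
    (hev : ∀ u ∈ O, ∃ m n : ℕ, m < n ∧ φ^[m] u = φ^[n] u) :
    O.card ≤ 2 * (perSet φ O).card ∨
      ∃ y w : ℤ, y ∈ O ∧ w ∈ O ∧ Per φ w ∧ φ y = -w ∧ ¬ Per φ (-w) := by
  classical
  by_cases hcov : O ⊆ perSet φ O ∪ (perSet φ O).image (fun u => -u)
  · left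
    have h1 := (card_le_card hcov).trans (card_union_le _ _)
    have h2 : ((perSet φ O).image (fun u => -u)).card ≤ (perSet φ O).card := card_image_le
    omega
  · right
    rw [not_subset] at hcov
    obtain ⟨u, hu, hnot⟩ := hcov
    rw [mem_union, not_or] at hnot
    have hnp : ¬ Per φ u := fun h1 => hnot.1 (mem_perSet.2 ⟨hu, h1⟩)
    obtain ⟨k, w, hw, pw, hkw, hnw⟩ := exists_tail' h hA hde hd hu (hev u hu) hnp
    rcases Nat.eq_zero_or_pos k with hk | hk
    · subst hk
      exact absurd (mem_image.2 ⟨w, mem_perSet.2 ⟨hw, pw⟩, hkw.symm⟩) hnot.2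
    · obtain ⟨j, rfl⟩ : ∃ j, k = j + 1 := ⟨k - 1, by omega⟩
      rw [Function.iterate_succ_apply'] at hkw
      exact ⟨φ^[j] u, w, h.iter_mem hu j, hw, pw, hkw, hnw⟩

/-- every periodic point has a periodic preimage -/
theorem per_pre (h : Sys d A b V O φ) {x : ℤ} (hx : x ∈ O) (px : Per φ x) :
    ∃ x' ∈ O, Per φ x' ∧ φ x' = x := by
  obtain ⟨N, hN, hper⟩ := id px
  refine ⟨φ^[N - 1] x, h.iter_mem hx _, px.iter _, ?_⟩
  rw [← Function.iterate_succ_apply' φ, Nat.succ_eq_add_one, Nat.sub_add_cancel hN]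
  exact hper

end general

end Pool.Agent.W2helper96.QP
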