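import Mathlib

/-!
# Two descents

For `k = 1, 3` the equation `X ^ 4 + 3 k X ^ 2 Y ^ 2 + 3 k ^ 2 Y ^ 4 = Z ^ 2` has no solutions in coprime
integers `X`, `Y` with `3 ∤ X`, `Y ≠ 0`. Consequences: `A ^ 6 + D ^ 2 = B ^ 3` with `D` even and
`A`, `D` coprime implies `D = 0`, and `A ^ 6 + C ^ 6 = 2 B ^ 3` with `A`, `C` odd and coprime
implies `A ^ 2 = C ^ 2`.
-/

set_option autoImplicit false

namespace Pool.Agent.W2helper96.QP

theorem pow_split {a b c : ℤ} {k : ℕ} (hab : IsCoprime a b) (h : a * b = c ^ k) (ha : 0 < a)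
    (hk : Even k) : ∃ x : ℤ, a = x ^ k := by
  obtain ⟨d, hd⟩ := exists_associated_pow_of_mul_eq_pow' hab h
  rcases Int.associated_iff.1 hd with h1 | h1
  · exact ⟨d, h1.symm⟩
  · have := hk.pow_nonneg d
    omega

theorem cube_split {a b c : ℤ} (hab : IsCoprime a b) (h : a * b = c ^ 3) :
    (∃ x : ℤ, a = x ^ 3) ∧ ∃ y : ℤ, b = y ^ 3 := by
  constructor
  · obtain ⟨d, hd⟩ := exists_associated_pow_of_mul_eq_pow' hab h
    rcases Int.associated_iff.1 hd with h1 | h1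
    · exact ⟨d, h1.symm⟩
    · exact ⟨-d, by rw [Odd.neg_pow (by decide)]; omega⟩
  · obtain ⟨d, hd⟩ := exists_associated_pow_of_mul_eq_pow' hab.symm (by rw [mul_comm]; exact h)
    rcases Int.associated_iff.1 hd with h1 | h1
    · exact ⟨d, h1.symm⟩
    · exact ⟨-d, by rw [Odd.neg_pow (by decide)]; omega⟩

theorem sq_split {a b c : ℤ} (hab : IsCoprime a b) (h : a * b = c ^ 2) (hb : 0 < b) :
    (∃ x : ℤ, a = x ^ 2) ∧ ∃ y : ℤ, b = y ^ 2 := by
  have hb' := pow_split hab.symm (by rw [mul_comm]; exact h) hb (by decide)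
  refine ⟨?_, hb'⟩
  rcases lt_trichotomy a 0 with h1 | h1 | h1
  · nlinarith [sq_nonneg c]
  · exact ⟨0, by rw [h1]; norm_num⟩
  · exact pow_split hab h h1 (by decide)

/-- the prime `3` -/
theorem three_dvd_of {z : ℤ} (hz : Prime z) {x : ℤ} (h3 : z ∣ 3) (hx : z ∣ x) : (3 : ℤ) ∣ x :=
  (hz.associated_of_dvd Int.prime_three h3).dvd'.trans hx

theorem dvd_three {z k : ℤ} (hz : Prime z) (hk : k = 1 ∨ k = 3) (h : z ∣ 3 * k ^ 2) : z ∣ 3 := by
  rcases hk with rfl | rfl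
  · simpa using h
  · have : (3 : ℤ) * 3 ^ 2 = 3 ^ 3 := by norm_num
    rw [this] at h
    exact hz.dvd_of_dvd_pow h

theorem sq_of_pow4 {x y Y : ℤ} (h : x ^ 4 * y ^ 4 = Y ^ 4) : (x * y) ^ 2 = Y ^ 2 := by
  have h1 : ((x * y) ^ 2) ^ 2 = (Y ^ 2) ^ 2 := by
    rw [← pow_mul, ← pow_mul, mul_pow]; exact h
  exact (pow_left_inj₀ (sq_nonneg _) (sq_nonneg _) (by norm_num)).1 h1

theorem split {k M N Y : ℤ} (hk : k = 1 ∨ k = 3) (hc : IsCoprime M N) (hM : 0 < M) (hN : 0 < N)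
    (h : M * N = 3 * k ^ 2 * Y ^ 4) :
    (∃ x y : ℤ, M = 3 * k ^ 2 * y ^ 4 ∧ N = x ^ 4 ∧ (x * y) ^ 2 = Y ^ 2) ∨
      ∃ x y : ℤ, M = x ^ 4 ∧ N = 3 * k ^ 2 * y ^ 4 ∧ (x * y) ^ 2 = Y ^ 2 := by
  have key : ∀ {M N : ℤ}, IsCoprime M N → 0 < M → 0 < N → M * N = 3 * k ^ 2 * Y ^ 4 →
      (3 : ℤ) ∣ M → ∃ x y : ℤ, M = 3 * k ^ 2 * y ^ 4 ∧ N = x ^ 4 ∧ (x * y) ^ 2 = Y ^ 2 := by
    intro M N hc hM hN h h3
    have hN3 : IsCoprime (3 * k ^ 2) N := by
      have h1 : IsCoprime 3 N := hc.of_isCoprime_of_dvd_left h3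
      rcases hk with rfl | rfl
      · simpa using h1
      · have h2 : (3 : ℤ) * 3 ^ 2 = 3 ^ 3 := by norm_num
        rw [h2]
        exact h1.pow_left
    have hKM : 3 * k ^ 2 ∣ M := hN3.dvd_of_dvd_mul_right ⟨Y ^ 4, h⟩
    obtain ⟨m, rfl⟩ := hKM
    have hkpos : 0 < 3 * k ^ 2 := by rcases hk with rfl | rfl <;> norm_num
    have hm : 0 < m := by
      by_contra hcon
      push Not at hcon
      nlinarith
    have hmN : m * N = Y ^ 4 := by
      apply mul_left_cancel₀ hkpos.ne'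
      rw [← h]; ring
    have hcm : IsCoprime m N := hc.of_isCoprime_of_dvd_left (dvd_mul_left _ _)
    obtain ⟨y, hy⟩ := pow_split hcm hmN hm (by decide)
    obtain ⟨x, hx⟩ := pow_split hcm.symm (by rw [mul_comm]; exact hmN) hN (by decide)
    refine ⟨x, y, by rw [hy], hx, ?_⟩
    apply sq_of_pow4
    rw [← hmN, hy, hx]; ring
  have h3 : (3 : ℤ) ∣ M * N := ⟨k ^ 2 * Y ^ 4, by rw [h]; ring⟩
  rcases Int.prime_three.dvd_or_dvd h3 with h4 | h4
  · exact Or.inl (key hc hM hN h h4)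
  · right
    obtain ⟨x, y, h5, h6, h7⟩ := key hc.symm hN hM (by rw [mul_comm]; exact h) h4
    exact ⟨x, y, h6, h5, h7⟩

theorem even_of_cast {Y : ℤ} (h : (4 : ZMod 8) * (Y : ZMod 8) = 0) : (2 : ℤ) ∣ Y := by
  have h1 : ((4 * Y : ℤ) : ZMod 8) = 0 := by push_cast; exact h
  rw [ZMod.intCast_zmod_eq_zero_iff_dvd] at h1
  push_cast at h1
  omega

theorem cast_of_odd {X : ℤ} (h : ¬ (2 : ℤ) ∣ X) : (4 : ZMod 8) * (X : ZMod 8) ≠ 0 :=
  fun h1 => h (even_of_cast h1)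

theorem parity {k X Y Z : ℤ} (hk : k = 1 ∨ k = 3)
    (h : X ^ 4 + 3 * k * X ^ 2 * Y ^ 2 + 3 * k ^ 2 * Y ^ 4 = Z ^ 2) : (2 : ℤ) ∣ Y := by
  apply even_of_cast
  have h1 := congrArg (Int.cast : ℤ → ZMod 8) h
  push_cast at h1
  generalize (X : ZMod 8) = x at h1
  generalize (Y : ZMod 8) = y at h1 ⊢
  generalize (Z : ZMod 8) = z at h1
  rcases hk with rfl | rfl
  · revert x y z
    decide
  · revert x y z
    decide

theorem parity2 {k X x y : ℤ} (hk : k = 1 ∨ k = 3) (hX : ¬ (2 : ℤ) ∣ X)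
    (h : x ^ 4 - 3 * k ^ 2 * y ^ 4 = X ^ 2 + 6 * k * (x * y) ^ 2) : (2 : ℤ) ∣ y := by
  apply even_of_cast
  have h0 := cast_of_odd hX
  have h1 := congrArg (Int.cast : ℤ → ZMod 8) h
  push_cast at h1
  generalize (X : ZMod 8) = X' at h1 h0
  generalize (x : ZMod 8) = x' at h1
  generalize (y : ZMod 8) = y' at h1 ⊢
  rcases hk with rfl | rfl
  · revert X' x' y'
    decide
  · revert X' x' y'
    decide

theorem mod_three {k X x y : ℤ} (h : 3 * k ^ 2 * y ^ 4 - x ^ 4 = X ^ 2 + 6 * k * (x * y) ^ 2) :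
    (3 : ℤ) ∣ X := by
  have h2 : (3 : ℤ) ∣ X ^ 2 + x ^ 4 := ⟨k ^ 2 * y ^ 4 - 2 * k * (x * y) ^ 2, by
    linear_combination -h⟩
  have h3 : (((X ^ 2 + x ^ 4 : ℤ)) : ZMod 3) = 0 := (ZMod.intCast_zmod_eq_zero_iff_dvd _ 3).2 h2
  push_cast at h3
  have h4 : (X : ZMod 3) = 0 := by
    generalize (X : ZMod 3) = X' at h3 ⊢
    generalize (x : ZMod 3) = x' at h3
    revert X' x'
    decide
  exact_mod_cast (ZMod.intCast_zmod_eq_zero_iff_dvd _ 3).1 h4

/-- **The descent.** -/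
theorem desc {k : ℤ} (hk : k = 1 ∨ k = 3) (n : ℕ) : ∀ X Y Z : ℤ, Y.natAbs = n → IsCoprime X Y →
    ¬ (3 : ℤ) ∣ X → X ^ 4 + 3 * k * X ^ 2 * Y ^ 2 + 3 * k ^ 2 * Y ^ 4 = Z ^ 2 → Y = 0 := by
  induction n using Nat.strong_induction_on with
  | _ n ih =>
    intro X Y Z hn hXY h3X h
    by_contra hY0
    have hkpos : 0 < k := by rcases hk with rfl | rfl <;> norm_num
    obtain ⟨Y1, rfl⟩ := parity hk h
    have hXodd : ¬ (2 : ℤ) ∣ X := by
      intro h2
      have := hXY.isUnit_of_dvd' h2 (dvd_mul_right _ _)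
      rw [Int.isUnit_iff] at this
      omega
    have hY10 : Y1 ≠ 0 := by
      rintro rfl
      exact hY0 (by ring)
    set S : ℤ := X ^ 2 + 6 * k * Y1 ^ 2 with hS
    have hSpos : 0 < S := by
      have h1 : 0 < Y1 ^ 2 := by positivity
      have h2 : 0 ≤ X ^ 2 := sq_nonneg _
      rw [hS]
      nlinarith [mul_pos hkpos h1]
    have hW : |Z| ^ 2 = S ^ 2 + 12 * k ^ 2 * Y1 ^ 4 := by
      rw [sq_abs, ← h, hS]; ring
    set W : ℤ := |Z| with hWdef
    have hW0 : 0 ≤ W := abs_nonneg _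
    have hX2 : X % 2 = 1 := by omega
    have hSodd : S % 2 = 1 := by
      have h1 : (X ^ 2) % 2 = 1 := by
        rw [pow_two, Int.mul_emod, hX2]; norm_num
      have h2 : S = X ^ 2 + 2 * (3 * k * Y1 ^ 2) := by rw [hS]; ring
      omega
    have hWodd : W % 2 = 1 := by
      have h1 : W ^ 2 % 2 = 1 := by
        have h2 : (S ^ 2) % 2 = 1 := by
          rw [pow_two, Int.mul_emod, hSodd]; norm_num
        have h4 : W ^ 2 = S ^ 2 + 2 * (6 * k ^ 2 * Y1 ^ 4) := by rw [hW]; ring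
        omega
      rcases Int.emod_two_eq_zero_or_one W with h2 | h2
      · rw [pow_two, Int.mul_emod, h2] at h1
        norm_num at h1
      · exact h2
    obtain ⟨M, hM⟩ : ∃ M, W - S = 2 * M := ⟨(W - S) / 2, by omega⟩
    set N : ℤ := M + S with hNdef
    have hMN : M * N = 3 * k ^ 2 * Y1 ^ 4 := by
      have h1 : W = 2 * M + S := by linear_combination hM
      rw [h1] at hW
      have h2 : 4 * (M * N) = 4 * (3 * k ^ 2 * Y1 ^ 4) := by
        rw [hNdef]; linear_combination hW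
      linarith
    have hsum : M + N = W := by rw [hNdef]; linear_combination -hM
    have hpos : 0 < M * N := by
      rw [hMN]
      have : 0 < Y1 ^ 4 := by positivity
      positivity
    have hMpos : 0 < M := by
      rcases mul_pos_iff.1 hpos with h1 | h1
      · exact h1.1
      · exfalso; linarith [h1.1, h1.2]
    have hNpos : 0 < N := by
      rcases mul_pos_iff.1 hpos with h1 | h1
      · exact h1.2
      · exfalso; linarith [h1.1, h1.2]
    have hcop : IsCoprime M N := by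
      apply isCoprime_of_prime_dvd (fun h1 => hMpos.ne' h1.1)
      intro z hz hzM hzN
      have hzS : z ∣ X ^ 2 + 6 * k * Y1 ^ 2 := by
        have h1 : N - M = X ^ 2 + 6 * k * Y1 ^ 2 := by rw [hNdef, hS]; ring
        rw [← h1]; exact dvd_sub hzN hzM
      have h1 : z ∣ 3 * k ^ 2 * Y1 ^ 4 := by rw [← hMN]; exact hzM.mul_right _
      rcases hz.dvd_or_dvd h1 with h2 | h2
      · have h4 := dvd_three hz hk h2
        have h5 : z ∣ X ^ 2 := by
          have h6 : z ∣ 6 * k * Y1 ^ 2 := by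
            have : (6 : ℤ) * k * Y1 ^ 2 = 3 * (2 * k * Y1 ^ 2) := by ring
            rw [this]; exact h4.mul_right _
          exact (dvd_add_left h6).1 hzS
        exact h3X (three_dvd_of hz h4 (hz.dvd_of_dvd_pow h5))
      · have h4 := hz.dvd_of_dvd_pow h2
        have h5 : z ∣ X ^ 2 := by
          have h6 : z ∣ 6 * k * Y1 ^ 2 := (h4.pow (by norm_num) : z ∣ Y1 ^ 2).mul_left _
          exact (dvd_add_left h6).1 hzS
        exact hz.not_isUnit (hXY.isUnit_of_dvd' (hz.dvd_of_dvd_pow h5) (h4.mul_left _))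
    rcases split hk hcop hMpos hNpos hMN with ⟨x, y, hMx, hNx, hxy⟩ | ⟨x, y, hMx, hNx, hxy⟩
    swap
    · -- mod 3
      apply h3X
      apply mod_three (k := k) (x := x) (y := y)
      rw [← hNx, ← hMx, hxy, hNdef, hS]; ring
    have e1 : x ^ 4 - 3 * k ^ 2 * y ^ 4 = X ^ 2 + 6 * k * (x * y) ^ 2 := by
      rw [← hMx, ← hNx, hxy, hNdef, hS]; ring
    obtain ⟨y1, hy1⟩ := parity2 hk hXodd e1
    have hy0 : y ≠ 0 := by
      rintro rfl
      rw [hMx] at hMpos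
      norm_num at hMpos
    have hx0 : x ≠ 0 := by
      rintro rfl
      rw [hNx] at hNpos
      norm_num at hNpos
    have hxodd : x % 2 = 1 := by
      rcases Int.emod_two_eq_zero_or_one x with h2 | h2
      · exfalso
        obtain ⟨x1, hx1⟩ : ∃ x1, x = 2 * x1 := ⟨x / 2, by omega⟩
        have h4 : (2 : ℤ) ∣ X ^ 2 := by
          refine ⟨8 * x1 ^ 4 - 24 * k ^ 2 * y1 ^ 4 - 3 * k * (x * y) ^ 2, ?_⟩
          have h5 : X ^ 2 = x ^ 4 - 3 * k ^ 2 * y ^ 4 - 6 * k * (x * y) ^ 2 := by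
            linear_combination -e1
          rw [h5, hx1, hy1]; ring
        exact hXodd (Int.prime_two.dvd_of_dvd_pow h4)
      · exact h2
    set U : ℤ := x ^ 2 - 3 * k * y ^ 2 with hU
    have hUX : U ^ 2 - X ^ 2 = 12 * k ^ 2 * y ^ 4 := by
      rw [hU]; linear_combination e1
    have hUodd : U % 2 = 1 := by
      have h1 : (x ^ 2) % 2 = 1 := by
        rw [pow_two, Int.mul_emod, hxodd]; norm_num
      have h2 : U = x ^ 2 - 2 * (6 * k * y1 ^ 2) := by rw [hU, hy1]; ring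
      omega
    obtain ⟨P, hP⟩ : ∃ P, U - X = 2 * P := ⟨(U - X) / 2, by omega⟩
    set Q : ℤ := P + X with hQ
    have hPQ : P * Q = 3 * k ^ 2 * y ^ 4 := by
      have h1 : U = 2 * P + X := by linear_combination hP
      rw [h1] at hUX
      have h2 : 4 * (P * Q) = 4 * (3 * k ^ 2 * y ^ 4) := by
        rw [hQ]; linear_combination hUX
      linarith
    have hPQs : P + Q = x ^ 2 - 3 * k * y ^ 2 := by rw [← hU, hQ]; linear_combination -hP
    have hPQpos : 0 < P * Q := by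
      rw [hPQ]
      have : 0 < y ^ 4 := by positivity
      positivity
    have hPQc : IsCoprime P Q := by
      apply isCoprime_of_prime_dvd
      · intro h1
        rw [h1.1] at hPQpos
        norm_num at hPQpos
      intro z hz hzP hzQ
      have hzU : z ∣ x ^ 2 - 3 * k * y ^ 2 := by rw [← hPQs]; exact dvd_add hzP hzQ
      have h1 : z ∣ 3 * k ^ 2 * y ^ 4 := by rw [← hPQ]; exact hzP.mul_right _
      have hzM : z ∣ M := by rw [hMx]; exact h1
      have h2 : z ∣ x ^ 2 := by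
        have h6 : z ∣ 3 * k * y ^ 2 := by
          rcases hz.dvd_or_dvd h1 with h2 | h2
          · rw [mul_assoc]; exact (dvd_three hz hk h2).mul_right _
          · exact ((hz.dvd_of_dvd_pow h2).pow (by norm_num) : z ∣ y ^ 2).mul_left _
        exact (dvd_sub_left h6).1 hzU
      have hzN : z ∣ N := by
        rw [hNx]; exact (hz.dvd_of_dvd_pow h2).pow (by norm_num)
      exact hz.not_isUnit (hcop.isUnit_of_dvd' hzM hzN)
    -- sizes
    have hsize : ∀ g h : ℤ, (g * h) ^ 2 = y ^ 2 → h.natAbs < n := by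
      intro g h' hgh
      have h1 : h'.natAbs ∣ y.natAbs := by
        apply Int.natAbs_dvd_natAbs.2
        apply (Int.pow_dvd_pow_iff (n := 2) (by norm_num)).1
        rw [← hgh]; exact pow_dvd_pow_of_dvd (dvd_mul_left _ _) 2
      have h2 : y.natAbs ∣ Y1.natAbs := by
        apply Int.natAbs_dvd_natAbs.2
        apply (Int.pow_dvd_pow_iff (n := 2) (by norm_num)).1
        rw [← hxy]; exact pow_dvd_pow_of_dvd (dvd_mul_left _ _) 2
      have h4 := Nat.le_of_dvd (Int.natAbs_pos.2 hY10) (h1.trans h2)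
      have h5 := Int.natAbs_pos.2 hY10
      rw [← hn, Int.natAbs_mul]
      norm_num
      omega
    -- the new solution
    have hfin : ∀ g h : ℤ, IsCoprime (g ^ 4) (3 * k ^ 2 * h ^ 4) → (g * h) ^ 2 = y ^ 2 →
        g ^ 4 + 3 * k ^ 2 * h ^ 4 = x ^ 2 - 3 * k * y ^ 2 → False := by
      intro g h' hc hgh heq
      have h1 : IsCoprime g h' := by
        have h2 : IsCoprime g (3 * k ^ 2 * h' ^ 4) := (IsCoprime.pow_left_iff (by norm_num)).1 hc
        exact h2.of_isCoprime_of_dvd_right ((dvd_pow_self _ (by norm_num)).mul_left _)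
      have h2 : ¬ (3 : ℤ) ∣ g := by
        intro h4
        have h5 := hc.isUnit_of_dvd' (h4.pow (by norm_num) : (3 : ℤ) ∣ g ^ 4)
          (⟨k ^ 2 * h' ^ 4, by ring⟩ : (3 : ℤ) ∣ 3 * k ^ 2 * h' ^ 4)
        exact Int.prime_three.not_isUnit h5
      have h4 := ih _ (hsize g h' hgh) g h' x rfl h1 h2 (by
        rw [← hgh] at heq
        linear_combination heq)
      rw [h4, mul_zero] at hgh
      apply hy0
      have : y ^ 2 = 0 := by rw [← hgh]; norm_num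
      exact pow_eq_zero_iff (by norm_num) |>.1 this
    have hneg : ∀ g h : ℤ, (g * h) ^ 2 = y ^ 2 →
        -(g ^ 4 + 3 * k ^ 2 * h ^ 4) = x ^ 2 - 3 * k * y ^ 2 → False := by
      intro g h' hgh heq
      rw [← hgh] at heq
      have h1 : 4 * x ^ 2 = -((2 * g ^ 2 - 3 * k * h' ^ 2) ^ 2 + 3 * (k * h' ^ 2) ^ 2) := by
        linear_combination -4 * heq
      have h2 : 0 < x ^ 2 := by positivity
      nlinarith [sq_nonneg (2 * g ^ 2 - 3 * k * h' ^ 2), sq_nonneg (k * h' ^ 2)]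
    rcases mul_pos_iff.1 hPQpos with ⟨hp1, hp2⟩ | ⟨hp1, hp2⟩
    · rcases split hk hPQc hp1 hp2 hPQ with ⟨g, h', h1, h2, h4⟩ | ⟨g, h', h1, h2, h4⟩
      · refine hfin g h' ?_ h4 ?_
        · rw [← h1, ← h2]; exact hPQc.symm
        · rw [← h1, ← h2, ← hPQs]; ring
      · refine hfin g h' ?_ h4 ?_
        · rw [← h1, ← h2]; exact hPQc
        · rw [← h1, ← h2, ← hPQs]
    · have hc' : IsCoprime (-P) (-Q) := hPQc.neg_neg
      rcases split hk hc' (by linarith) (by linarith) (by rw [neg_mul_neg]; exact hPQ) with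
        ⟨g, h', h1, h2, h4⟩ | ⟨g, h', h1, h2, h4⟩
      · refine hneg g h' h4 ?_
        rw [← h1, ← h2, ← hPQs]; ring
      · refine hneg g h' h4 ?_
        rw [← h1, ← h2, ← hPQs]; ring

theorem mod8_E1 {a r t : ℤ} (ha : ¬ (2 : ℤ) ∣ a) :
    3 * a ^ 4 + 3 * a ^ 2 * r ^ 2 + r ^ 4 ≠ t ^ 2 := by
  intro h
  have h0 := cast_of_odd ha
  have h1 := congrArg (Int.cast : ℤ → ZMod 8) h
  push_cast at h1
  generalize (a : ZMod 8) = a' at h1 h0
  generalize (r : ZMod 8) = r' at h1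
  generalize (t : ZMod 8) = t' at h1
  revert a' r' t'
  decide

/-- `y ^ 2 = x ^ 3 - 1` -/
theorem E1 {A D B : ℤ} (hA : ¬ (2 : ℤ) ∣ A) (hc : IsCoprime A D) (h : A ^ 6 + D ^ 2 = B ^ 3) :
    D = 0 := by
  have hA0 : A ≠ 0 := by
    rintro rfl
    exact hA (dvd_zero _)
  have hA2 : 0 < A ^ 2 := by positivity
  by_cases h3 : (3 : ℤ) ∣ B - A ^ 2
  · obtain ⟨R, hR⟩ := h3
    have hB : B = A ^ 2 + 3 * R := by linear_combination hR
    have hD : D ^ 2 = 9 * (R * (A ^ 4 + 3 * A ^ 2 * R + 3 * R ^ 2)) := by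
      rw [hB] at h; linear_combination h
    have h3D : (3 : ℤ) ∣ D := by
      apply Int.prime_three.dvd_of_dvd_pow (n := 2)
      rw [hD]; exact ⟨3 * (R * (A ^ 4 + 3 * A ^ 2 * R + 3 * R ^ 2)), by ring⟩
    obtain ⟨D', rfl⟩ := h3D
    have hD' : R * (A ^ 4 + 3 * A ^ 2 * R + 3 * R ^ 2) = D' ^ 2 := by
      have h1 : 9 * (R * (A ^ 4 + 3 * A ^ 2 * R + 3 * R ^ 2)) = 9 * D' ^ 2 := by
        rw [← hD]; ring
      linarith
    have hcRA : IsCoprime R A := by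
      apply isCoprime_of_prime_dvd (fun h1 => hA0 h1.2)
      intro z hz hzR hzA
      have h1 : z ∣ D' ^ 2 := by rw [← hD']; exact hzR.mul_right _
      exact hz.not_isUnit (hc.isUnit_of_dvd' hzA ((hz.dvd_of_dvd_pow h1).mul_left _))
    have hcRF : IsCoprime R (A ^ 4 + 3 * A ^ 2 * R + 3 * R ^ 2) := by
      have h1 : A ^ 4 + 3 * A ^ 2 * R + 3 * R ^ 2 = A ^ 4 + R * (3 * A ^ 2 + 3 * R) := by ring
      rw [h1]
      exact (hcRA.pow_right).add_mul_left_right _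
    have hpos : 0 < A ^ 4 + 3 * A ^ 2 * R + 3 * R ^ 2 := by
      have h1 : 4 * (A ^ 4 + 3 * A ^ 2 * R + 3 * R ^ 2) =
          (A ^ 2 + 6 * R) ^ 2 + 3 * A ^ 4 - 24 * R ^ 2 := by ring
      nlinarith [sq_nonneg (2 * A ^ 2 + 3 * R), sq_nonneg R, mul_pos hA2 hA2,
        sq_nonneg (A ^ 2 + 2 * R)]
    obtain ⟨⟨r, hr⟩, t, ht⟩ := sq_split hcRF hD' hpos
    have hcAr : IsCoprime A r := by
      have h1 : IsCoprime (r ^ 2) A := by rw [← hr]; exact hcRA
      exact ((IsCoprime.pow_left_iff (by norm_num)).1 h1).symm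
    have h3A : ¬ (3 : ℤ) ∣ A := fun h1 =>
      Int.prime_three.not_isUnit (hc.isUnit_of_dvd' h1 (dvd_mul_right _ _))
    have h1 := desc (Or.inl rfl) _ A r t rfl hcAr h3A (by rw [← ht, hr]; ring)
    rw [h1] at hr
    rw [hr] at hD'
    have h2 : D' ^ 2 = 0 := by rw [← hD']; ring
    rw [pow_eq_zero_iff (by norm_num)] at h2
    rw [h2, mul_zero]
  · exfalso
    have hprod : (B - A ^ 2) * (B ^ 2 + A ^ 2 * B + A ^ 4) = D ^ 2 := by linear_combination -h
    have hpos : 0 < B ^ 2 + A ^ 2 * B + A ^ 4 := by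
      nlinarith [sq_nonneg (2 * B + A ^ 2), mul_pos hA2 hA2]
    have hBA : ∀ z : ℤ, Prime z → z ∣ B → ¬ z ∣ A := by
      intro z hz hzB hzA
      have h1 : z ∣ D ^ 2 := by
        have h2 : D ^ 2 = B ^ 3 - A ^ 6 := by linear_combination h
        rw [h2]
        exact dvd_sub (hzB.pow (by norm_num)) (hzA.pow (by norm_num))
      exact hz.not_isUnit (hc.isUnit_of_dvd' hzA (hz.dvd_of_dvd_pow h1))
    have hcop : IsCoprime (B - A ^ 2) (B ^ 2 + A ^ 2 * B + A ^ 4) := by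
      apply isCoprime_of_prime_dvd (fun h1 => hpos.ne' h1.2)
      intro z hz hz1 hz2
      have h1 : z ∣ 3 * (A ^ 2 * B) := by
        have h2 : 3 * (A ^ 2 * B) = (B ^ 2 + A ^ 2 * B + A ^ 4) - (B - A ^ 2) * (B - A ^ 2) := by
          ring
        rw [h2]
        exact dvd_sub hz2 (hz1.mul_right _)
      rcases hz.dvd_or_dvd h1 with h2 | h2
      · exact h3 (three_dvd_of hz h2 hz1)
      · rcases hz.dvd_or_dvd h2 with h4 | h4
        · have h5 := hz.dvd_of_dvd_pow h4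
          have h6 : z ∣ B := by
            have h7 : B = (B - A ^ 2) + A ^ 2 := by ring
            rw [h7]; exact dvd_add hz1 h4
          exact hBA z hz h6 h5
        · have h5 : z ∣ A ^ 2 := by
            have h7 : A ^ 2 = B - (B - A ^ 2) := by ring
            rw [h7]; exact dvd_sub h4 hz1
          exact hBA z hz h4 (hz.dvd_of_dvd_pow h5)
    obtain ⟨⟨r, hr⟩, t, ht⟩ := sq_split hcop hprod hpos
    have hB : B = A ^ 2 + r ^ 2 := by linear_combination hr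
    apply mod8_E1 (r := r) (t := t) hA
    rw [← ht, hB]; ring

/-- `y ^ 2 = x ^ 3 - 27` -/
theorem E3 {m b n : ℤ} (hc : IsCoprime m b) (h : m ^ 6 + 3 * b ^ 2 = n ^ 3) : b = 0 := by
  have h3 : (3 : ℤ) ∣ n - m ^ 2 := by
    have h1 := congrArg (Int.cast : ℤ → ZMod 3) h
    have h2 : ((n - m ^ 2 : ℤ) : ZMod 3) = 0 := by
      push_cast at h1 ⊢
      generalize (n : ZMod 3) = n' at h1 ⊢
      generalize (m : ZMod 3) = m' at h1 ⊢
      generalize (b : ZMod 3) = b' at h1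
      revert n' m' b'
      decide
    exact_mod_cast (ZMod.intCast_zmod_eq_zero_iff_dvd _ 3).1 h2
  obtain ⟨R, hR⟩ := h3
  have hn : n = m ^ 2 + 3 * R := by linear_combination hR
  have hb : b ^ 2 = 3 * (R * (m ^ 4 + 3 * m ^ 2 * R + 3 * R ^ 2)) := by
    rw [hn] at h
    have : 3 * b ^ 2 = 3 * (3 * (R * (m ^ 4 + 3 * m ^ 2 * R + 3 * R ^ 2))) := by
      linear_combination h
    linarith
  have h3b : (3 : ℤ) ∣ b := by
    apply Int.prime_three.dvd_of_dvd_pow (n := 2)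
    rw [hb]; exact dvd_mul_right _ _
  have h3m : ¬ (3 : ℤ) ∣ m := fun h1 =>
    Int.prime_three.not_isUnit (hc.isUnit_of_dvd' h1 h3b)
  have hm0 : m ≠ 0 := by
    rintro rfl
    exact h3m (dvd_zero _)
  obtain ⟨b', rfl⟩ := h3b
  have h3R : (3 : ℤ) ∣ R := by
    have h1 : (3 : ℤ) ∣ R * m ^ 4 := by
      refine ⟨b' ^ 2 - R * (m ^ 2 * R + R ^ 2), ?_⟩
      linarith
    rcases Int.prime_three.dvd_or_dvd h1 with h2 | h2
    · exact h2
    · exact absurd (Int.prime_three.dvd_of_dvd_pow h2) h3m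
  obtain ⟨R', rfl⟩ := h3R
  have hb' : R' * (m ^ 4 + 9 * m ^ 2 * R' + 27 * R' ^ 2) = b' ^ 2 := by linarith
  have hcRm : IsCoprime R' m := by
    apply isCoprime_of_prime_dvd (fun h1 => hm0 h1.2)
    intro z hz hzR hzm
    have h1 : z ∣ b' ^ 2 := by rw [← hb']; exact hzR.mul_right _
    exact hz.not_isUnit (hc.isUnit_of_dvd' hzm ((hz.dvd_of_dvd_pow h1).mul_left _))
  have hcRF : IsCoprime R' (m ^ 4 + 9 * m ^ 2 * R' + 27 * R' ^ 2) := by
    have h1 : m ^ 4 + 9 * m ^ 2 * R' + 27 * R' ^ 2 = m ^ 4 + R' * (9 * m ^ 2 + 27 * R') := by ring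
    rw [h1]
    exact (hcRm.pow_right).add_mul_left_right _
  have hm2 : 0 < m ^ 2 := by positivity
  have hpos : 0 < m ^ 4 + 9 * m ^ 2 * R' + 27 * R' ^ 2 := by
    nlinarith [sq_nonneg (m ^ 2 + 6 * R'), sq_nonneg (2 * m ^ 2 + 9 * R'), mul_pos hm2 hm2]
  obtain ⟨⟨r, hr⟩, t, ht⟩ := sq_split hcRF hb' hpos
  have hcmr : IsCoprime m r := by
    have h1 : IsCoprime (r ^ 2) m := by rw [← hr]; exact hcRm
    exact ((IsCoprime.pow_left_iff (by norm_num)).1 h1).symm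
  have h1 := desc (Or.inr rfl) _ m r t rfl hcmr h3m (by rw [← ht, hr]; ring)
  rw [h1] at hr
  rw [hr] at hb'
  have h2 : b' ^ 2 = 0 := by rw [← hb']; ring
  rw [pow_eq_zero_iff (by norm_num)] at h2
  rw [h2, mul_zero]

/-- `x ^ 3 + y ^ 3 = 2 z ^ 3` for squares -/
theorem E2 {A C B : ℤ} (hA : ¬ (2 : ℤ) ∣ A) (hC : ¬ (2 : ℤ) ∣ C) (hc : IsCoprime A C)
    (h : A ^ 6 + C ^ 6 = 2 * B ^ 3) : A ^ 2 = C ^ 2 := by
  have hA2 : A ^ 2 % 2 = 1 := by
    rw [pow_two, Int.mul_emod, show A % 2 = 1 by omega]; norm_num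
  have hC2 : C ^ 2 % 2 = 1 := by
    rw [pow_two, Int.mul_emod, show C % 2 = 1 by omega]; norm_num
  obtain ⟨m, hm⟩ : ∃ m, A ^ 2 + C ^ 2 = 2 * m := ⟨(A ^ 2 + C ^ 2) / 2, by omega⟩
  obtain ⟨b, hb⟩ : ∃ b, A ^ 2 - C ^ 2 = 2 * b := ⟨(A ^ 2 - C ^ 2) / 2, by omega⟩
  have hAm : A ^ 2 = m + b := by linarith
  have hCm : C ^ 2 = m - b := by linarith
  have hF : A ^ 4 - A ^ 2 * C ^ 2 + C ^ 4 = m ^ 2 + 3 * b ^ 2 := by
    have h1 : A ^ 4 - A ^ 2 * C ^ 2 + C ^ 4 =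
      (A ^ 2) ^ 2 - A ^ 2 * C ^ 2 + (C ^ 2) ^ 2 := by ring
    rw [h1, hAm, hCm]; ring
  have hcmb : IsCoprime m b := by
    apply isCoprime_of_prime_dvd
    · rintro ⟨rfl, rfl⟩
      rw [add_zero] at hAm
      exact hA (by
        have : A = 0 := by
          rwa [pow_eq_zero_iff (by norm_num)] at hAm
        rw [this]; exact dvd_zero _)
    intro z hz hzm hzb
    have h1 : z ∣ A := hz.dvd_of_dvd_pow (n := 2) (by rw [hAm]; exact dvd_add hzm hzb)
    have h2 : z ∣ C := hz.dvd_of_dvd_pow (n := 2) (by rw [hCm]; exact dvd_sub hzm hzb)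
    exact hz.not_isUnit (hc.isUnit_of_dvd' h1 h2)
  have hprod : m * (m ^ 2 + 3 * b ^ 2) = B ^ 3 := by
    rw [← hF]
    have h1 : 2 * (m * (A ^ 4 - A ^ 2 * C ^ 2 + C ^ 4)) = 2 * B ^ 3 := by
      rw [← h]
      linear_combination -(A ^ 4 - A ^ 2 * C ^ 2 + C ^ 4) * hm
    linarith
  have hcop : IsCoprime m (m ^ 2 + 3 * b ^ 2) := by
    apply isCoprime_of_prime_dvd
    · rintro ⟨rfl, h2⟩
      have h4 : b = 0 := by nlinarith
      rw [h4] at hcmb
      exact not_isUnit_zero (isCoprime_zero_left.1 hcmb)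
    intro z hz hzm hz2
    have h1 : z ∣ 3 * b ^ 2 := (dvd_add_right (hzm.pow (by norm_num) : z ∣ m ^ 2)).1 hz2
    rcases hz.dvd_or_dvd h1 with h2 | h2
    · have h4 : (3 : ℤ) ∣ A ^ 2 + C ^ 2 := by
        rw [hm]; exact (three_dvd_of hz h2 hzm).mul_left _
      have h5 : (((A ^ 2 + C ^ 2 : ℤ)) : ZMod 3) = 0 := (ZMod.intCast_zmod_eq_zero_iff_dvd _ 3).2 h4
      push_cast at h5
      have h6 : (A : ZMod 3) = 0 ∧ (C : ZMod 3) = 0 := by
        generalize (A : ZMod 3) = a at h5 ⊢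
        generalize (C : ZMod 3) = c at h5 ⊢
        revert a c
        decide
      have h7 : (3 : ℤ) ∣ A := by exact_mod_cast (ZMod.intCast_zmod_eq_zero_iff_dvd _ 3).1 h6.1
      have h8 : (3 : ℤ) ∣ C := by exact_mod_cast (ZMod.intCast_zmod_eq_zero_iff_dvd _ 3).1 h6.2
      exact Int.prime_three.not_isUnit (hc.isUnit_of_dvd' h7 h8)
    · exact hz.not_isUnit (hcmb.isUnit_of_dvd' hzm (hz.dvd_of_dvd_pow h2))
  obtain ⟨⟨x, hx⟩, y, hy⟩ := cube_split hcop hprod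
  have h1 : b = 0 := by
    apply E3 (m := x) (n := y)
    · rw [hx] at hcmb
      exact (IsCoprime.pow_left_iff (by norm_num)).1 hcmb
    · rw [← hy, hx]; ring
  rw [hAm, hCm, h1]; ring

end Pool.Agent.W2helper96.QP
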