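import Pool.Agent.W2helper96.QP.Dio

/-!
# The descent for `x ^ 5 - y ^ 5 = k z ^ 2`

The only rational points of `5 w ^ 2 = x ^ 4 + x ^ 3 + x ^ 2 + x + 1` are `(1, ± 1)`.
-/

set_option autoImplicit false

namespace Pool.Agent.W2helper96.QP

theorem split125 {M N Y : ℤ} (hc : IsCoprime M N) (hM : 0 < M) (hN : 0 < N)
    (h : M * N = 125 * Y ^ 4) :
    (∃ x y : ℤ, M = 125 * y ^ 4 ∧ N = x ^ 4 ∧ (x * y) ^ 2 = Y ^ 2) ∨
      ∃ x y : ℤ, M = x ^ 4 ∧ N = 125 * y ^ 4 ∧ (x * y) ^ 2 = Y ^ 2 := by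
  have hp5 : Prime (5 : ℤ) := by
    have := Nat.prime_iff_prime_int.1 Nat.prime_five
    exact_mod_cast this
  have key : ∀ {M N : ℤ}, IsCoprime M N → 0 < M → 0 < N → M * N = 125 * Y ^ 4 →
      (5 : ℤ) ∣ M → ∃ x y : ℤ, M = 125 * y ^ 4 ∧ N = x ^ 4 ∧ (x * y) ^ 2 = Y ^ 2 := by
    intro M N hc hM hN h h5
    have hN5 : IsCoprime (125 : ℤ) N := by
      have h1 : IsCoprime 5 N := hc.of_isCoprime_of_dvd_left h5
      have h2 : (125 : ℤ) = 5 ^ 3 := by norm_num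
      rw [h2]
      exact h1.pow_left
    have hKM : (125 : ℤ) ∣ M := hN5.dvd_of_dvd_mul_right ⟨Y ^ 4, h⟩
    obtain ⟨m, rfl⟩ := hKM
    have hm : 0 < m := by omega
    have hmN : m * N = Y ^ 4 := by
      apply mul_left_cancel₀ (show (125 : ℤ) ≠ 0 by norm_num)
      rw [← h]; ring
    have hcm : IsCoprime m N := hc.of_isCoprime_of_dvd_left (dvd_mul_left _ _)
    obtain ⟨y, hy⟩ := pow_split hcm hmN hm (by decide)
    obtain ⟨x, hx⟩ := pow_split hcm.symm (by rw [mul_comm]; exact hmN) hN (by decide)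
    refine ⟨x, y, by rw [hy], hx, ?_⟩
    apply sq_of_pow4
    rw [← hmN, hy, hx]; ring
  have h5 : (5 : ℤ) ∣ M * N := ⟨25 * Y ^ 4, by rw [h]; ring⟩
  rcases hp5.dvd_or_dvd h5 with h4 | h4
  · exact Or.inl (key hc hM hN h h4)
  · right
    obtain ⟨x, y, h5, h6, h7⟩ := key hc.symm hN hM (by rw [mul_comm]; exact h) h4
    exact ⟨x, y, h6, h5, h7⟩

/-- both signs -/
theorem split125' {M N Y : ℤ} (hc : IsCoprime M N) (hY : Y ≠ 0) (h : M * N = 125 * Y ^ 4) :
    ∃ x y : ℤ, IsCoprime x y ∧ ¬ (5 : ℤ) ∣ x ∧ (x * y) ^ 2 = Y ^ 2 ∧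
      (M + N = x ^ 4 + 125 * y ^ 4 ∨ M + N = -(x ^ 4 + 125 * y ^ 4)) := by
  have hpos : 0 < M * N := by
    rw [h]
    have : 0 < Y ^ 4 := by positivity
    positivity
  have hfin : ∀ x y : ℤ, IsCoprime (x ^ 4) (125 * y ^ 4) → IsCoprime x y ∧ ¬ (5 : ℤ) ∣ x := by
    intro x y hxy
    have h1 : IsCoprime x (125 * y ^ 4) := (IsCoprime.pow_left_iff (by norm_num)).1 hxy
    refine ⟨h1.of_isCoprime_of_dvd_right ((dvd_pow_self _ (by norm_num)).mul_left _), ?_⟩
    intro h5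
    have h2 := h1.isUnit_of_dvd' h5 (⟨25 * y ^ 4, by ring⟩ : (5 : ℤ) ∣ 125 * y ^ 4)
    rw [Int.isUnit_iff] at h2
    omega
  rcases mul_pos_iff.1 hpos with ⟨hp1, hp2⟩ | ⟨hp1, hp2⟩
  · rcases split125 hc hp1 hp2 h with ⟨x, y, h1, h2, h3⟩ | ⟨x, y, h1, h2, h3⟩
    · rw [h1, h2] at hc
      obtain ⟨h4, h5⟩ := hfin x y hc.symm
      exact ⟨x, y, h4, h5, h3, Or.inl (by rw [h1, h2]; ring)⟩
    · rw [h1, h2] at hc
      obtain ⟨h4, h5⟩ := hfin x y hc
      exact ⟨x, y, h4, h5, h3, Or.inl (by rw [h1, h2])⟩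
  · have hc' : IsCoprime (-M) (-N) := hc.neg_neg
    rcases split125 hc' (by linarith) (by linarith) (by rw [neg_mul_neg]; exact h) with
      ⟨x, y, h1, h2, h3⟩ | ⟨x, y, h1, h2, h3⟩
    · rw [h1, h2] at hc'
      obtain ⟨h4, h5⟩ := hfin x y hc'.symm
      exact ⟨x, y, h4, h5, h3, Or.inr (by linarith)⟩
    · rw [h1, h2] at hc'
      obtain ⟨h4, h5⟩ := hfin x y hc'
      exact ⟨x, y, h4, h5, h3, Or.inr (by linarith)⟩

theorem five_prime : Prime (5 : ℤ) := by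
  have := Nat.prime_iff_prime_int.1 Nat.prime_five
  exact_mod_cast this

/-- Coprimality of the two factors. -/
theorem cop125 {P Q X Y S : ℤ} (hXY : IsCoprime X Y) (h5 : ¬ (5 : ℤ) ∣ X)
    (hsum : P + Q = S) (hS : ∀ z : ℤ, Prime z → z ∣ S → z ∣ Y → z ∣ X)
    (hS5 : (5 : ℤ) ∣ S → (5 : ℤ) ∣ X) (h : P * Q = 125 * Y ^ 4) (hP : P ≠ 0) : IsCoprime P Q := by
  apply isCoprime_of_prime_dvd (fun h1 => hP h1.1)
  intro z hz hzP hzQ
  have hzS : z ∣ S := by rw [← hsum]; exact dvd_add hzP hzQ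
  have h1 : z ∣ 125 * Y ^ 4 := by rw [← h]; exact hzP.mul_right _
  rcases hz.dvd_or_dvd h1 with h2 | h2
  · have h3 : z ∣ 5 := by
      have e : (125 : ℤ) = 5 ^ 3 := by norm_num
      rw [e] at h2
      exact hz.dvd_of_dvd_pow h2
    have h4 : (5 : ℤ) ∣ z := (hz.associated_of_dvd five_prime h3).dvd'
    exact h5 (hS5 (h4.trans hzS))
  · have h3 := hz.dvd_of_dvd_pow h2
    exact hz.not_isUnit (hXY.isUnit_of_dvd' (hS z hz hzS h3) h3)

theorem cast8 {Y : ℤ} (h : ¬ (2 : ℤ) ∣ Y) : (4 : ZMod 8) * (Y : ZMod 8) ≠ 0 := cast_of_odd h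

/-- parities in `F3` -/
theorem par_F3 {g h z : ℤ} (he : g ^ 4 - 25 * g ^ 2 * h ^ 2 + 125 * h ^ 4 = z ^ 2) :
    (2 : ℤ) ∣ g ∨ (2 : ℤ) ∣ h := by
  have h1 := congrArg (Int.cast : ℤ → ZMod 8) he
  push_cast at h1
  have key : (4 : ZMod 8) * (g : ZMod 8) = 0 ∨ (4 : ZMod 8) * (h : ZMod 8) = 0 := by
    generalize (g : ZMod 8) = g' at h1 ⊢
    generalize (h : ZMod 8) = h' at h1 ⊢
    generalize (z : ZMod 8) = z' at h1
    revert g' h' z'
    decide
  rcases key with h2 | h2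
  · exact Or.inl (even_of_cast h2)
  · exact Or.inr (even_of_cast h2)

theorem par_16 {m h z : ℤ} (hh : ¬ (2 : ℤ) ∣ h)
    (he : 16 * m ^ 4 - 100 * m ^ 2 * h ^ 2 + 125 * h ^ 4 = z ^ 2) : ¬ (2 : ℤ) ∣ m := by
  intro h2
  obtain ⟨k, rfl⟩ := h2
  have h0 := cast_of_odd hh
  have h1 := congrArg (Int.cast : ℤ → ZMod 8) he
  push_cast at h1
  generalize (k : ZMod 8) = k' at h1
  generalize (h : ZMod 8) = h' at h1 h0
  generalize (z : ZMod 8) = z' at h1
  revert k' h' z'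
  decide

theorem mod16_neg {m a b : ℤ} (ha : ¬ (2 : ℤ) ∣ a) (hb : ¬ (2 : ℤ) ∣ b) :
    16 * m ^ 2 ≠ 50 * (a * b) ^ 2 - (a ^ 4 + 125 * b ^ 4) := by
  intro he
  obtain ⟨i, rfl⟩ : ∃ i, a = 2 * i + 1 := ⟨a / 2, by omega⟩
  obtain ⟨j, rfl⟩ : ∃ j, b = 2 * j + 1 := ⟨b / 2, by omega⟩
  have h1 := congrArg (Int.cast : ℤ → ZMod 16) he
  push_cast at h1
  generalize (m : ZMod 16) = m' at h1
  generalize (i : ZMod 16) = i' at h1
  generalize (j : ZMod 16) = j' at h1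
  have h2 : (16 : ZMod 16) = 0 := rfl
  rw [h2, zero_mul] at h1
  revert i' j'
  decide

theorem par_F1 {X a b : ℤ} (hX : ¬ (2 : ℤ) ∣ X)
    (he : X ^ 2 = a ^ 4 + 50 * (a * b) ^ 2 + 125 * b ^ 4) : ¬ (2 : ℤ) ∣ a ∧ (2 : ℤ) ∣ b := by
  have h0 := cast_of_odd hX
  have h1 := congrArg (Int.cast : ℤ → ZMod 8) he
  push_cast at h1
  have key : (4 : ZMod 8) * (a : ZMod 8) ≠ 0 ∧ (4 : ZMod 8) * (b : ZMod 8) = 0 := by
    generalize (X : ZMod 8) = X' at h1 h0
    generalize (a : ZMod 8) = a' at h1 ⊢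
    generalize (b : ZMod 8) = b' at h1 ⊢
    revert X' a' b'
    decide
  refine ⟨fun h2 => key.1 ?_, even_of_cast key.2⟩
  obtain ⟨k, rfl⟩ := h2
  push_cast
  have : (4 : ZMod 8) * (2 * (k : ZMod 8)) = 8 * k := by ring
  rw [this, show (8 : ZMod 8) = 0 from rfl, zero_mul]

theorem par_F1_neg {X a b : ℤ} (hX : ¬ (2 : ℤ) ∣ X) :
    X ^ 2 ≠ 50 * (a * b) ^ 2 - (a ^ 4 + 125 * b ^ 4) := by
  intro he
  have h0 := cast_of_odd hX
  have h1 := congrArg (Int.cast : ℤ → ZMod 8) he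
  push_cast at h1
  generalize (X : ZMod 8) = X' at h1 h0
  generalize (a : ZMod 8) = a' at h1
  generalize (b : ZMod 8) = b' at h1
  revert X' a' b'
  decide

theorem sq_odd {x : ℤ} (h : ¬ (2 : ℤ) ∣ x) : x ^ 2 % 8 = 1 := by
  obtain ⟨i, rfl⟩ : ∃ i, x = 2 * i + 1 := ⟨x / 2, by omega⟩
  have h1 : (2 * i + 1) ^ 2 = 4 * (i * (i + 1)) + 1 := by ring
  have h2 : (i * (i + 1)) % 2 = 0 := Int.emod_eq_zero_of_dvd (Int.even_mul_succ_self i).two_dvd
  rw [h1]
  omega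

/-- odd if the square is -/
theorem odd_of_sq {x y : ℤ} (h : x ^ 2 = y) (hy : y % 2 = 1) : x % 2 = 1 := by
  rcases Int.emod_two_eq_zero_or_one x with h2 | h2
  · obtain ⟨i, rfl⟩ := Int.dvd_of_emod_eq_zero h2
    have : y = 2 * (2 * i ^ 2) := by rw [← h]; ring
    omega
  · exact h2

/-- The quartic `16 m ^ 4 - 100 m ^ 2 h ^ 2 + 125 h ^ 4` with odd `m`, `h` is not a square. -/
theorem no_16 {m h z : ℤ} (hm : ¬ (2 : ℤ) ∣ m) (hh : ¬ (2 : ℤ) ∣ h) (hc : IsCoprime m h)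
    (h5 : ¬ (5 : ℤ) ∣ m) : 16 * m ^ 4 - 100 * m ^ 2 * h ^ 2 + 125 * h ^ 4 ≠ z ^ 2 := by
  intro he
  have hm2 := sq_odd hm
  have hh2 := sq_odd hh
  have hh0 : h ≠ 0 := by rintro rfl; exact hh (dvd_zero _)
  set T : ℤ := 8 * m ^ 2 - 25 * h ^ 2 with hT
  have h1 : (T - 2 * z) * (T + 2 * z) = 125 * h ^ 4 := by
    rw [hT]; linear_combination 4 * he
  have hcop : IsCoprime (T - 2 * z) (T + 2 * z) := by
    apply cop125 (X := m) (Y := h) (S := 2 * T) hc h5 (by ring) ?_ ?_ h1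
    · intro h0
      rw [h0, zero_mul] at h1
      have : h ^ 4 ≠ 0 := pow_ne_zero _ hh0
      omega
    · intro y hy hyS hyh
      have hy2 : ¬ y ∣ 2 := by
        intro h7
        exact hh ((hy.associated_of_dvd Int.prime_two h7).dvd'.trans hyh)
      have h8 : y ∣ 2 ^ 4 * m ^ 2 := by
        have : (2 : ℤ) ^ 4 * m ^ 2 = 2 * T + 50 * h ^ 2 := by rw [hT]; ring
        rw [this]
        exact dvd_add hyS ((hyh.pow (by norm_num) : y ∣ h ^ 2).mul_left _)
      rcases hy.dvd_or_dvd h8 with h9 | h9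
      · exact absurd (hy.dvd_of_dvd_pow h9) hy2
      · exact hy.dvd_of_dvd_pow h9
    · intro h7
      have h8 : (5 : ℤ) ∣ 2 ^ 4 * m ^ 2 := by
        have : (2 : ℤ) ^ 4 * m ^ 2 = 2 * T + 5 * (10 * h ^ 2) := by rw [hT]; ring
        rw [this]
        exact dvd_add h7 (dvd_mul_right _ _)
      rcases five_prime.dvd_or_dvd h8 with h9 | h9
      · norm_num at h9
      · exact five_prime.dvd_of_dvd_pow h9
  obtain ⟨a, b, hab, ha5, habh, hs⟩ := split125' hcop hh0 h1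
  have hprod : a * b = h ∨ a * b = -h := sq_eq_sq_iff_eq_or_eq_neg.1 habh
  have hao : ¬ (2 : ℤ) ∣ a := by
    intro h7
    apply hh
    rcases hprod with h8 | h8
    · rw [← h8]; exact h7.mul_right _
    · rw [← dvd_neg, ← h8]; exact h7.mul_right _
  have hbo : ¬ (2 : ℤ) ∣ b := by
    intro h7
    apply hh
    rcases hprod with h8 | h8
    · rw [← h8]; exact h7.mul_left _
    · rw [← dvd_neg, ← h8]; exact h7.mul_left _
  have hsum : (T - 2 * z) + (T + 2 * z) = 16 * m ^ 2 - 50 * h ^ 2 := by rw [hT]; ring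
  rw [hsum] at hs
  rcases hs with hs | hs
  · -- `16 m² = a⁴ + 50 a² b² + 125 b⁴`
    have ha2 := sq_odd hao
    have hb2 := sq_odd hbo
    have hb0 : b ≠ 0 := by rintro rfl; exact hbo (dvd_zero _)
    obtain ⟨w, hw⟩ : ∃ w, a ^ 2 + 25 * b ^ 2 = 2 * w := ⟨(a ^ 2 + 25 * b ^ 2) / 2, by omega⟩
    have hwo : ¬ (2 : ℤ) ∣ w := by omega
    have e1 : (w - 2 * m) * (w + 2 * m) = 125 * b ^ 4 := by
      have e2 : 4 * ((w - 2 * m) * (w + 2 * m)) = 4 * (125 * b ^ 4) := by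
        have e3 : 4 * ((w - 2 * m) * (w + 2 * m)) = (2 * w) ^ 2 - 16 * m ^ 2 := by ring
        rw [e3, ← hw]
        rw [← habh] at hs
        linear_combination -hs
      linarith
    have hcop2 : IsCoprime (w - 2 * m) (w + 2 * m) := by
      apply cop125 (X := a) (Y := b) (S := a ^ 2 + 25 * b ^ 2) hab ha5 (by rw [hw]; ring) ?_ ?_ e1
      · intro h0
        rw [h0, zero_mul] at e1
        have : b ^ 4 ≠ 0 := pow_ne_zero _ hb0
        omega
      · intro y hy hyS hyb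
        have h8 : y ∣ a ^ 2 :=
          (dvd_add_left ((hyb.pow (by norm_num) : y ∣ b ^ 2).mul_left 25)).1 hyS
        exact hy.dvd_of_dvd_pow h8
      · intro h7
        have h8 : (5 : ℤ) ∣ a ^ 2 := by
          have h9 : (5 : ℤ) ∣ 25 * b ^ 2 := ⟨5 * b ^ 2, by ring⟩
          exact (dvd_add_left h9).1 h7
        exact five_prime.dvd_of_dvd_pow h8
    obtain ⟨μ, ν, hμν, -, hμνb, hs2⟩ := split125' hcop2 hb0 e1
    have hs3 : (w - 2 * m) + (w + 2 * m) = a ^ 2 + 25 * b ^ 2 := by rw [hw]; ring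
    rw [hs3] at hs2
    rcases hs2 with hs2 | hs2
    · have h7 : μ ^ 4 - 25 * μ ^ 2 * ν ^ 2 + 125 * ν ^ 4 = a ^ 2 := by
        rw [← hμνb] at hs2; linear_combination -hs2
      have hprod2 : μ * ν = b ∨ μ * ν = -b := sq_eq_sq_iff_eq_or_eq_neg.1 hμνb
      rcases par_F3 h7 with h8 | h8
      · apply hbo
        rcases hprod2 with h9 | h9
        · rw [← h9]; exact h8.mul_right _
        · rw [← dvd_neg, ← h9]; exact h8.mul_right _
      · apply hbo
        rcases hprod2 with h9 | h9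
        · rw [← h9]; exact h8.mul_left _
        · rw [← dvd_neg, ← h9]; exact h8.mul_left _
    · have p1 : 0 < b ^ 2 := by positivity
      have p2 : 0 ≤ μ ^ 4 := by positivity
      have p3 : 0 ≤ ν ^ 4 := by positivity
      linarith [sq_nonneg a]
  · apply mod16_neg (m := m) hao hbo
    rw [habh]; linarith

/-- **The descent.** -/
theorem desc5 (n : ℕ) : ∀ g h z : ℤ, h.natAbs = n → IsCoprime g h → ¬ (5 : ℤ) ∣ g →
    g ^ 4 - 25 * g ^ 2 * h ^ 2 + 125 * h ^ 4 = z ^ 2 → h = 0 := by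
  induction n using Nat.strong_induction_on with
  | _ n ih =>
    intro g h z hn hgh h5 he
    by_contra hh0
    by_cases h2h : (2 : ℤ) ∣ h
    swap
    · -- `g` even
      have h2g := (par_F3 he).resolve_right h2h
      obtain ⟨m, rfl⟩ := h2g
      have he' : 16 * m ^ 4 - 100 * m ^ 2 * h ^ 2 + 125 * h ^ 4 = z ^ 2 := by
        linear_combination he
      have hm := par_16 h2h he'
      exact no_16 hm h2h (hgh.of_isCoprime_of_dvd_left (dvd_mul_left _ _))
        (fun h7 => h5 (h7.mul_left _)) he'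
    · obtain ⟨Y, rfl⟩ := h2h
      have hgo : ¬ (2 : ℤ) ∣ g := by
        intro h7
        have := hgh.isUnit_of_dvd' h7 (dvd_mul_right _ _)
        rw [Int.isUnit_iff] at this
        omega
      have hY0 : Y ≠ 0 := by
        rintro rfl
        exact hh0 (by ring)
      have hgY : IsCoprime g Y := hgh.of_isCoprime_of_dvd_right (dvd_mul_left _ _)
      have hg2 := sq_odd hgo
      have hz2 : z % 2 = 1 := by
        apply odd_of_sq (y := z ^ 2) rfl
        have : z ^ 2 = g ^ 2 * g ^ 2 + 2 * (-50 * g ^ 2 * Y ^ 2 + 1000 * Y ^ 4) := by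
          rw [← he]; ring
        have h8 : (g ^ 2 * g ^ 2) % 2 = 1 := by
          rw [Int.mul_emod, show g ^ 2 % 2 = 1 by omega]; norm_num
        omega
      -- first step
      obtain ⟨P, hP⟩ : ∃ P, g ^ 2 - 50 * Y ^ 2 - z = 2 * P := by
        refine ⟨(g ^ 2 - 50 * Y ^ 2 - z) / 2, ?_⟩
        have h8 : g ^ 2 - 50 * Y ^ 2 - z = g ^ 2 - z - 2 * (25 * Y ^ 2) := by ring
        omega
      have e1 : P * (P + z) = 125 * Y ^ 4 := by
        have e2 : 4 * (P * (P + z)) = 4 * (125 * Y ^ 4) := by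
          have e3 : 4 * (P * (P + z)) = (2 * P) * (2 * P + 2 * z) := by ring
          rw [e3, ← hP]
          linear_combination he
        linarith
      have hsum : P + (P + z) = g ^ 2 - 50 * Y ^ 2 := by linear_combination -hP
      have hcop : IsCoprime P (P + z) := by
        apply cop125 (X := g) (Y := Y) hgY h5 hsum ?_ ?_ e1
        · intro h0
          rw [h0, zero_mul] at e1
          have : Y ^ 4 ≠ 0 := pow_ne_zero _ hY0
          omega
        · intro y hy hyS hyY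
          have h8 : y ∣ g ^ 2 :=
            (dvd_sub_left ((hyY.pow (by norm_num) : y ∣ Y ^ 2).mul_left 50)).1 hyS
          exact hy.dvd_of_dvd_pow h8
        · intro h7
          have h8 : (5 : ℤ) ∣ g ^ 2 := by
            have h9 : (5 : ℤ) ∣ 50 * Y ^ 2 := ⟨10 * Y ^ 2, by ring⟩
            exact (dvd_sub_left h9).1 h7
          exact five_prime.dvd_of_dvd_pow h8
      obtain ⟨a, b, hab, ha5, habY, hs⟩ := split125' hcop hY0 e1
      rw [hsum] at hs
      rcases hs with hs | hs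
      swap
      · apply par_F1_neg (a := a) (b := b) hgo
        rw [habY]; linarith
      have e4 : g ^ 2 = a ^ 4 + 50 * (a * b) ^ 2 + 125 * b ^ 4 := by rw [habY]; linarith
      obtain ⟨hao, hbe⟩ := par_F1 hgo e4
      have hb0 : b ≠ 0 := by
        rintro rfl
        rw [mul_zero] at habY
        apply hY0
        have : Y ^ 2 = 0 := by rw [← habY]; norm_num
        exact (pow_eq_zero_iff (by norm_num)).1 this
      -- second step
      have ha2 := sq_odd hao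
      obtain ⟨b1, hb1⟩ := hbe
      obtain ⟨P', hP'⟩ : ∃ P', a ^ 2 + 25 * b ^ 2 - g = 2 * P' := by
        refine ⟨(a ^ 2 + 25 * b ^ 2 - g) / 2, ?_⟩
        have h8 : a ^ 2 + 25 * b ^ 2 - g = a ^ 2 - g + 2 * (50 * b1 ^ 2) := by rw [hb1]; ring
        omega
      have e5 : P' * (P' + g) = 125 * b ^ 4 := by
        have e6 : 4 * (P' * (P' + g)) = 4 * (125 * b ^ 4) := by
          have e7 : 4 * (P' * (P' + g)) = (2 * P') * (2 * P' + 2 * g) := by ring
          rw [e7, ← hP']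
          linear_combination -e4
        linarith
      have hsum' : P' + (P' + g) = a ^ 2 + 25 * b ^ 2 := by linear_combination -hP'
      have hcop' : IsCoprime P' (P' + g) := by
        apply cop125 (X := a) (Y := b) hab ha5 hsum' ?_ ?_ e5
        · intro h0
          rw [h0, zero_mul] at e5
          have : b ^ 4 ≠ 0 := pow_ne_zero _ hb0
          omega
        · intro y hy hyS hyb
          have h8 : y ∣ a ^ 2 :=
            (dvd_add_left ((hyb.pow (by norm_num) : y ∣ b ^ 2).mul_left 25)).1 hyS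
          exact hy.dvd_of_dvd_pow h8
        · intro h7
          have h8 : (5 : ℤ) ∣ a ^ 2 := by
            have h9 : (5 : ℤ) ∣ 25 * b ^ 2 := ⟨5 * b ^ 2, by ring⟩
            exact (dvd_add_left h9).1 h7
          exact five_prime.dvd_of_dvd_pow h8
      obtain ⟨μ, ν, hμν, hμ5, hμνb, hs'⟩ := split125' hcop' hb0 e5
      rw [hsum'] at hs'
      rcases hs' with hs' | hs'
      swap
      · have p1 : 0 < b ^ 2 := by positivity
        have p2 : 0 ≤ μ ^ 4 := by positivity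
        have p3 : 0 ≤ ν ^ 4 := by positivity
        linarith [sq_nonneg a]
      have e8 : μ ^ 4 - 25 * μ ^ 2 * ν ^ 2 + 125 * ν ^ 4 = a ^ 2 := by
        rw [← hμνb] at hs'; linear_combination -hs'
      have hsz : ν.natAbs < n := by
        have h1 : ν.natAbs ∣ b.natAbs := by
          apply Int.natAbs_dvd_natAbs.2
          apply (Int.pow_dvd_pow_iff (n := 2) (by norm_num)).1
          rw [← hμνb]; exact pow_dvd_pow_of_dvd (dvd_mul_left _ _) 2
        have h2 : b.natAbs ∣ Y.natAbs := by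
          apply Int.natAbs_dvd_natAbs.2
          apply (Int.pow_dvd_pow_iff (n := 2) (by norm_num)).1
          rw [← habY]; exact pow_dvd_pow_of_dvd (dvd_mul_left _ _) 2
        have h4 := Nat.le_of_dvd (Int.natAbs_pos.2 hY0) (h1.trans h2)
        have h5 := Int.natAbs_pos.2 hY0
        rw [← hn, Int.natAbs_mul]
        norm_num
        omega
      have hν := ih _ hsz μ ν a rfl hμν hμ5 e8
      rw [hν, mul_zero] at hμνb
      apply hb0
      have : b ^ 2 = 0 := by rw [← hμνb]; norm_num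
      exact (pow_eq_zero_iff (by norm_num)).1 this

/-- `(x ^ 5 - y ^ 5) / (x - y)` -/
def Q5 (x y : ℤ) : ℤ := x ^ 4 + x ^ 3 * y + x ^ 2 * y ^ 2 + x * y ^ 3 + y ^ 4

/-- **The curve of genus one.** -/
theorem quartic5 {x y t : ℤ} (hx : ¬ (2 : ℤ) ∣ x) (hy : ¬ (2 : ℤ) ∣ y) (hc : IsCoprime x y)
    (h5 : (5 : ℤ) ∣ x - y) (he : Q5 x y = 5 * t ^ 2) : x = y := by
  obtain ⟨r, hr⟩ : ∃ r, x = y + 10 * r := by
    obtain ⟨k, hk⟩ := h5
    exact ⟨k / 2, by omega⟩
  by_contra hne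
  have hr0 : r ≠ 0 := by rintro rfl; exact hne (by rw [hr]; ring)
  have h5x : ¬ (5 : ℤ) ∣ x := by
    intro h1
    have h2 : (5 : ℤ) ∣ y := by omega
    exact five_prime.not_isUnit (hc.isUnit_of_dvd' h1 h2)
  have h5y : ¬ (5 : ℤ) ∣ y := by omega
  set N : ℤ := x * y with hN
  have hNr : IsCoprime N r := by
    apply isCoprime_of_prime_dvd (fun h1 => hr0 h1.2)
    intro z hz hzN hzr
    rcases hz.dvd_or_dvd hzN with h1 | h1
    · have h2 : z ∣ y := by
        have : y = x - 10 * r := by rw [hr]; ring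
        rw [this]; exact dvd_sub h1 (hzr.mul_left _)
      exact hz.not_isUnit (hc.isUnit_of_dvd' h1 h2)
    · have h2 : z ∣ x := by rw [hr]; exact dvd_add h1 (hzr.mul_left _)
      exact hz.not_isUnit (hc.isUnit_of_dvd' h2 h1)
  have h5N : ¬ (5 : ℤ) ∣ N := by
    intro h1
    rcases five_prime.dvd_or_dvd h1 with h2 | h2
    · exact h5x h2
    · exact h5y h2
  have ht : t ^ 2 = N ^ 2 + 100 * N * r ^ 2 + 2000 * r ^ 4 := by
    have : 5 * t ^ 2 = 5 * (N ^ 2 + 100 * N * r ^ 2 + 2000 * r ^ 4) := by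
      rw [← he, hN, Q5, hr]; ring
    linarith
  have hNo : N % 2 = 1 := by
    rw [hN, Int.mul_emod, show x % 2 = 1 by omega, show y % 2 = 1 by omega]; norm_num
  have hto : t % 2 = 1 := by
    apply odd_of_sq (y := t ^ 2) rfl
    have : t ^ 2 = N * N + 2 * (50 * N * r ^ 2 + 1000 * r ^ 4) := by rw [ht]; ring
    have h8 : (N * N) % 2 = 1 := by
      rw [Int.mul_emod, hNo]; norm_num
    omega
  obtain ⟨P, hP⟩ : ∃ P, N + 50 * r ^ 2 - t = 2 * P := by
    refine ⟨(N + 50 * r ^ 2 - t) / 2, ?_⟩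
    have h8 : N + 50 * r ^ 2 - t = N - t + 2 * (25 * r ^ 2) := by ring
    omega
  have e1 : P * (P + t) = 125 * r ^ 4 := by
    have e2 : 4 * (P * (P + t)) = 4 * (125 * r ^ 4) := by
      have e3 : 4 * (P * (P + t)) = (2 * P) * (2 * P + 2 * t) := by ring
      rw [e3, ← hP]
      linear_combination -ht
    linarith
  have hsum : P + (P + t) = N + 50 * r ^ 2 := by linear_combination -hP
  have hcop : IsCoprime P (P + t) := by
    apply cop125 (X := N) (Y := r) hNr h5N hsum ?_ ?_ e1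
    · intro h0
      rw [h0, zero_mul] at e1
      have : r ^ 4 ≠ 0 := pow_ne_zero _ hr0
      omega
    · intro z hz hzS hzr
      exact (dvd_add_left ((hzr.pow (by norm_num) : z ∣ r ^ 2).mul_left 50)).1 hzS
    · intro h7
      have h9 : (5 : ℤ) ∣ 50 * r ^ 2 := ⟨10 * r ^ 2, by ring⟩
      exact (dvd_add_left h9).1 h7
  obtain ⟨a, b, hab, ha5, habr, hs⟩ := split125' hcop hr0 e1
  rw [hsum] at hs
  have hsq : (y + 5 * r) ^ 2 = N + 25 * r ^ 2 := by rw [hN, hr]; ring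
  rcases hs with hs | hs
  · have h1 := desc5 _ a b (y + 5 * r) rfl hab ha5 (by
      rw [hsq]; rw [← habr] at hs ⊢; linear_combination -hs)
    rw [h1, mul_zero] at habr
    apply hr0
    have : r ^ 2 = 0 := by rw [← habr]; norm_num
    exact (pow_eq_zero_iff (by norm_num)).1 this
  · have h1 : (y + 5 * r) ^ 2 = -(a ^ 4 + 125 * b ^ 4) - 25 * r ^ 2 := by rw [hsq]; linarith
    have h2 : 0 < r ^ 2 := by positivity
    have p2 : 0 ≤ a ^ 4 := by positivity
    have p3 : 0 ≤ b ^ 4 := by positivity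
    linarith [sq_nonneg (y + 5 * r)]

theorem Q5_mul (x y : ℤ) : (x - y) * Q5 x y = x ^ 5 - y ^ 5 := by unfold Q5; ring

theorem Q5_mod8 {x y : ℤ} (hx : ¬ (2 : ℤ) ∣ x) (h4 : (x - y) % 4 = 0) : Q5 x y % 8 = 5 := by
  obtain ⟨k, hk⟩ : ∃ k, x = y + 4 * k := ⟨(x - y) / 4, by omega⟩
  obtain ⟨j, hj⟩ : ∃ j, y = 2 * j + 1 := ⟨y / 2, by omega⟩
  have h1 : ((Q5 x y - 5 : ℤ) : ZMod 8) = 0 := by
    rw [Q5, hk, hj]
    push_cast
    generalize (k : ZMod 8) = k'
    generalize (j : ZMod 8) = j'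
    revert k' j'
    decide
  rw [ZMod.intCast_zmod_eq_zero_iff_dvd] at h1
  push_cast at h1
  omega

theorem Q5_mod3 {x y : ℤ} (hc : IsCoprime x y) : ¬ (3 : ℤ) ∣ Q5 x y := by
  intro h
  have h1 : ((Q5 x y : ℤ) : ZMod 3) = 0 := (ZMod.intCast_zmod_eq_zero_iff_dvd _ 3).2 h
  rw [Q5] at h1
  push_cast at h1
  have h2 : (x : ZMod 3) = 0 ∧ (y : ZMod 3) = 0 := by
    generalize (x : ZMod 3) = x' at h1 ⊢
    generalize (y : ZMod 3) = y' at h1 ⊢
    revert x' y'
    decide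
  have h7 : (3 : ℤ) ∣ x := by exact_mod_cast (ZMod.intCast_zmod_eq_zero_iff_dvd _ 3).1 h2.1
  have h8 : (3 : ℤ) ∣ y := by exact_mod_cast (ZMod.intCast_zmod_eq_zero_iff_dvd _ 3).1 h2.2
  exact Int.prime_three.not_isUnit (hc.isUnit_of_dvd' h7 h8)

theorem Q5_pos {x y : ℤ} (hx : x ≠ 0) : 0 < Q5 x y := by
  have h1 : 0 < x ^ 2 := by positivity
  have h2 : 4 * Q5 x y = (2 * x ^ 2 + x * y + 2 * y ^ 2) ^ 2 - 5 * (x * y) ^ 2 := by
    unfold Q5; ring
  have h3 : 16 * Q5 x y = 4 * (2 * x ^ 2 + x * y + 2 * y ^ 2) ^ 2 - 20 * (x * y) ^ 2 := by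
    rw [← mul_left_cancel₀ (show (4 : ℤ) ≠ 0 by norm_num) (show 4 * (16 * Q5 x y) = 4 *
      (4 * (2 * x ^ 2 + x * y + 2 * y ^ 2) ^ 2 - 20 * (x * y) ^ 2) by linarith)]
  nlinarith [sq_nonneg (x ^ 2 - y ^ 2), sq_nonneg (x + y), sq_nonneg (x * y), mul_pos h1 h1,
    sq_nonneg (x ^ 2 + x * y + y ^ 2), sq_nonneg (x * (x + y)), sq_nonneg (y * (x + y)),
    sq_nonneg (x ^ 2), sq_nonneg (y ^ 2)]

/-- **`x ^ 5 - y ^ 5 = k z ^ 2`, `k = 1, 2, 3`.** -/
theorem K5 {x y z k : ℤ} (hk : k = 1 ∨ k = 2 ∨ k = 3) (hx : ¬ (2 : ℤ) ∣ x) (h4 : (x - y) % 4 = 0)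
    (hc : IsCoprime x y) (he : x ^ 5 - y ^ 5 = k * z ^ 2) : x = y := by
  have hy : ¬ (2 : ℤ) ∣ y := by omega
  have hx0 : x ≠ 0 := by rintro rfl; exact hx (dvd_zero _)
  have hQpos := Q5_pos (y := y) hx0
  have hQ8 := Q5_mod8 hx h4
  have hQ3 := Q5_mod3 hc
  have hprod : (x - y) * Q5 x y = k * z ^ 2 := by rw [Q5_mul, he]
  have hQk : IsCoprime (Q5 x y) k := by
    rcases hk with rfl | rfl | rfl
    · exact isCoprime_one_right
    · exact ((Prime.coprime_iff_not_dvd Int.prime_two).2 (by omega)).symm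
    · exact ((Prime.coprime_iff_not_dvd Int.prime_three).2 hQ3).symm
  have hQy : ∀ p : ℤ, Prime p → p ∣ x - y → p ∣ Q5 x y → p ∣ 5 := by
    intro p hp h1 h2
    have h3 : p ∣ 5 * y ^ 4 := by
      have : 5 * y ^ 4 = Q5 x y - (x - y) * (x ^ 3 + 2 * x ^ 2 * y + 3 * x * y ^ 2 + 4 * y ^ 3) := by
        unfold Q5; ring
      rw [this]; exact dvd_sub h2 (h1.mul_right _)
    rcases hp.dvd_or_dvd h3 with h4 | h4
    · exact h4
    · have h5 := hp.dvd_of_dvd_pow h4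
      have h6 : p ∣ x := by
        have : x = (x - y) + y := by ring
        rw [this]; exact dvd_add h1 h5
      exact absurd (hc.isUnit_of_dvd' h6 h5) hp.not_isUnit
  by_cases h5 : (5 : ℤ) ∣ x - y
  · -- `Q = 5 t ^ 2`
    obtain ⟨R, hR⟩ := h5
    have hxR : x = y + 5 * R := by linarith
    have h5y : ¬ (5 : ℤ) ∣ y := by
      intro h1
      have h2 : (5 : ℤ) ∣ x := by rw [hxR]; exact dvd_add h1 (dvd_mul_right _ _)
      exact five_prime.not_isUnit (hc.isUnit_of_dvd' h2 h1)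
    set Q' : ℤ := y ^ 4 + 10 * R * y ^ 3 + 50 * R ^ 2 * y ^ 2 + 125 * R ^ 3 * y + 125 * R ^ 4
      with hQ'
    have hQQ : Q5 x y = 5 * Q' := by rw [hxR, hQ', Q5]; ring
    have h5k : ¬ (5 : ℤ) ∣ k := by rcases hk with rfl | rfl | rfl <;> norm_num
    have hz5 : (5 : ℤ) ∣ z := by
      have h1 : (5 : ℤ) ∣ k * z ^ 2 := by rw [← hprod, hR]; exact (dvd_mul_right _ _).mul_right _
      exact five_prime.dvd_of_dvd_pow ((five_prime.dvd_or_dvd h1).resolve_left h5k)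
    obtain ⟨z', rfl⟩ := hz5
    have h1 : R * Q' = k * z' ^ 2 := by
      have : 25 * (R * Q') = 25 * (k * z' ^ 2) := by
        have e : 25 * (R * Q') = (x - y) * Q5 x y := by rw [hR, hQQ]; ring
        rw [e, hprod]; ring
      linarith
    have hcQR : IsCoprime Q' R := by
      have hyR : IsCoprime y R := by
        apply isCoprime_of_prime_dvd
        · rintro ⟨h2, -⟩
          exact hy (by rw [h2]; exact dvd_zero _)
        intro p hp h2 h3
        exact hp.not_isUnit (hc.isUnit_of_dvd' (by rw [hxR]; exact dvd_add h2 (h3.mul_left _)) h2)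
      have e : Q' = y ^ 4 + R * (10 * y ^ 3 + 50 * R * y ^ 2 + 125 * R ^ 2 * y + 125 * R ^ 3) := by
        rw [hQ']; ring
      rw [e]
      exact (hyR.pow_left).add_mul_left_left _
    have hQ'pos : 0 < Q' := by
      rw [hQQ] at hQpos; linarith
    have hQ'k : IsCoprime Q' k := by
      rw [hQQ] at hQk
      exact hQk.of_isCoprime_of_dvd_left (dvd_mul_left _ _)
    have hkR : k ∣ R := by
      apply hQ'k.symm.dvd_of_dvd_mul_right
      exact ⟨z' ^ 2, h1⟩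
    obtain ⟨R1, rfl⟩ := hkR
    have hk0 : k ≠ 0 := by rcases hk with rfl | rfl | rfl <;> norm_num
    have h2 : Q' * R1 = z' ^ 2 := by
      apply mul_left_cancel₀ hk0
      rw [← h1]; ring
    obtain ⟨t, ht⟩ := pow_split (hcQR.of_isCoprime_of_dvd_right (dvd_mul_left _ _)) h2 hQ'pos
      (by decide)
    exact quartic5 hx hy hc ⟨_, hR⟩ (by rw [hQQ, ht])
  · exfalso
    have hcop : IsCoprime (Q5 x y) (x - y) := by
      apply isCoprime_of_prime_dvd (fun h1 => hQpos.ne' h1.1)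
      intro p hp h1 h2
      exact h5 (((hp.associated_of_dvd five_prime (hQy p hp h2 h1)).dvd').trans h2)
    have hkd : k ∣ x - y := by
      apply hQk.symm.dvd_of_dvd_mul_right
      exact ⟨z ^ 2, hprod⟩
    obtain ⟨R1, hR1⟩ := hkd
    have hk0 : k ≠ 0 := by rcases hk with rfl | rfl | rfl <;> norm_num
    have h2 : Q5 x y * R1 = z ^ 2 := by
      apply mul_left_cancel₀ hk0
      rw [← hprod, hR1]; ring
    rw [hR1] at hcop
    obtain ⟨t, ht⟩ := pow_split (hcop.of_isCoprime_of_dvd_right (dvd_mul_left _ _)) h2 hQpos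
      (by decide)
    have hto : ¬ (2 : ℤ) ∣ t := by
      rintro ⟨i, rfl⟩
      have : (2 * i) ^ 2 = 4 * i ^ 2 := by ring
      omega
    have := sq_odd hto
    omega

end Pool.Agent.W2helper96.QP
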