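import Pool.Agent.W2helper96.QP.Main

/-!
# From integers to rational numbers
-/

set_option autoImplicit false

namespace Pool.Agent.W2helper96.QP

open Finset Pool.Agent.T6.H62.UB Pool.Agent.T6.H62.PP Pool.Agent.T6.H62.PP.G

theorem encard_le_of {S : Set ℚ} {N : ℕ} (h : ∀ T : Finset ℚ, (∀ x ∈ T, x ∈ S) → T.card ≤ N) :
    S.encard ≤ N := by
  classical
  by_contra hcon
  push Not at hcon
  have h1 : ((N + 1 : ℕ) : ℕ∞) ≤ S.encard := by
    push_cast
    exact Order.add_one_le_of_lt hcon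
  obtain ⟨t, ht, htc⟩ := Set.exists_subset_encard_eq h1
  have hfin : t.Finite := Set.finite_of_encard_eq_coe htc
  have h2 := h hfin.toFinset (fun x hx => ht (hfin.mem_toFinset.1 hx))
  rw [hfin.encard_eq_coe_toFinset_card] at htc
  have h3 : hfin.toFinset.card = N + 1 := by exact_mod_cast htc
  omega

/-- The map on the integers is the restriction of the rational map. -/
theorem sys_iter {d V : ℕ} {A b : ℤ} {O : Finset ℤ} {φ : ℤ → ℤ} (h : Sys d A b V O φ) (hV : 0 < V)
    (k : ℕ) {u : ℤ} (hu : u ∈ O) :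
    ((φ^[k] u : ℤ) : ℚ) = (fun x : ℚ => (A * x ^ d + b) / V)^[k] (u : ℚ) := by
  have hVQ : (V : ℚ) ≠ 0 := by exact_mod_cast hV.ne'
  induction k generalizing u with
  | zero => rfl
  | succ k ih =>
    rw [Function.iterate_succ_apply, Function.iterate_succ_apply, ih (h.maps u hu)]
    congr 1
    rw [eq_div_iff hVQ]
    have := h.eqn u hu
    have h2 : ((V : ℚ) * (φ u : ℚ)) = A * (u : ℚ) ^ d + b := by exact_mod_cast this
    linarith

/-- the rational numbers with finite orbit and those with a cycle as orbit -/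
def IsPer (f : ℚ → ℚ) (x : ℚ) : Prop := ∃ n : ℕ, 0 < n ∧ f^[n] x = x

/-- the two kinds of points -/
def Kind (per : Bool) (f : ℚ → ℚ) (x : ℚ) : Prop := if per then IsPer f x else IsPreperiodic f x

theorem IsPer.pre {f : ℚ → ℚ} {x : ℚ} (h : IsPer f x) : IsPreperiodic f x := by
  obtain ⟨n, hn, h⟩ := h
  exact ⟨0, n, hn, h.symm⟩

theorem Kind.pre {per : Bool} {f : ℚ → ℚ} {x : ℚ} (h : Kind per f x) : IsPreperiodic f x := by
  cases per
  · simpa [Kind] using h
  · exact IsPer.pre (by simpa [Kind] using h)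

theorem Kind.conj {per : Bool} {f g : ℚ → ℚ} {p x : ℚ} (hfg : ∀ k : ℕ, g^[k] (p * x) = p * f^[k] x)
    (h : Kind per f x) : Kind per g (p * x) := by
  cases per
  · simp only [Kind] at h ⊢
    obtain ⟨m, n, hmn, h⟩ := h
    exact ⟨m, n, hmn, by rw [hfg, hfg, h]⟩
  · simp only [Kind, if_true] at h ⊢
    obtain ⟨n, hn, h⟩ := h
    exact ⟨n, hn, by rw [hfg, h]⟩

/-- the bound -/
def Bnd (per : Bool) (d v : ℕ) : ℕ := if per then 2 * 4 ^ (bad d v).card else 4

/-- `A` is not divisible by `p ^ (d - 1)` for any prime `p`. -/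
theorem free_case {per : Bool} {d v : ℕ} {A b : ℤ} (hd : 4 ≤ d) (h4 : 4 ∣ d) (hA : A ≠ 0)
    (hv : 0 < v) (hAv : IsCoprime A (v : ℤ)) (hbv : IsCoprime b (v : ℤ))
    (hfree : ∀ p : ℕ, p.Prime → ¬ (p : ℤ) ^ (d - 1) ∣ A) (hb : per = false → bad d v = ∅)
    (T : Finset ℚ) (hT : ∀ x ∈ T, Kind per (fun x : ℚ => (A * x ^ d + b) / (v : ℚ) ^ 3) x) :
    T.card ≤ Bnd per d v := by
  classical
  have hAV : IsCoprime A ((v ^ 3 : ℕ) : ℤ) := by push_cast; exact hAv.pow_right
  have hBV : IsCoprime b ((v ^ 3 : ℕ) : ℤ) := by push_cast; exact hbv.pow_right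
  have hfun : (fun x : ℚ => (A * x ^ d + b) / (v : ℚ) ^ 3) =
      fun x : ℚ => (A * x ^ d + b) / ((v ^ 3 : ℕ) : ℚ) := by
    funext x; push_cast; rfl
  rw [hfun] at hT
  have hV : 0 < v ^ 3 := by positivity
  obtain ⟨O, φ, hs, hmem, hc, hev⟩ := exists_sys (d := d) (by omega) hA hV hAV hBV hfree T
    (fun x hx => (hT x hx).pre)
  cases per
  · have h1 := sys_pre hs hA hd h4 hv hev (hb rfl)
    simp only [Bnd]
    exact hc.trans h1
  · have h1 := sys_per hs hd h4 hv hev
    simp only [Bnd, if_true]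
    refine le_trans ?_ h1
    choose! u hu using hmem
    apply card_le_card_of_injOn u
    · intro x hx
      have hx' := mem_coe.1 hx
      rw [mem_coe, mem_perSet]
      refine ⟨(hu x hx').1, ?_⟩
      have h2 := hT x hx'
      simp only [Kind, if_true] at h2
      obtain ⟨n, hn, h3⟩ := h2
      refine ⟨n, hn, ?_⟩
      have h4 := sys_iter hs hV n (hu x hx').1
      rw [(hu x hx').2, h3] at h4
      have h5 := h4.trans (hu x hx').2.symm
      exact_mod_cast h5
    · intro x hx y hy hxy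
      rw [← (hu x (mem_coe.1 hx)).2, ← (hu y (mem_coe.1 hy)).2, hxy]

/-- All `A`. -/
theorem all_A {per : Bool} {d v : ℕ} (hd : 4 ≤ d) (h4 : 4 ∣ d) (hv : 0 < v)
    (hb : per = false → bad d v = ∅) : ∀ (A b : ℤ), A ≠ 0 → IsCoprime A (v : ℤ) →
    IsCoprime b (v : ℤ) → ∀ T : Finset ℚ,
      (∀ x ∈ T, Kind per (fun x : ℚ => (A * x ^ d + b) / (v : ℚ) ^ 3) x) → T.card ≤ Bnd per d v := by
  classical
  intro A
  induction hn : A.natAbs using Nat.strong_induction_on generalizing A with
  | _ n ih =>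
    intro b hA hAv hbv T hT
    have hvQ : (v : ℚ) ≠ 0 := by exact_mod_cast hv.ne'
    by_cases hfree : ∀ p : ℕ, p.Prime → ¬ (p : ℤ) ^ (d - 1) ∣ A
    · exact free_case hd h4 hA hv hAv hbv hfree hb T hT
    · push Not at hfree
      obtain ⟨p, hp, A', hA'⟩ := hfree
      have hp0 : (p : ℤ) ≠ 0 := by exact_mod_cast hp.ne_zero
      have hpQ : (p : ℚ) ≠ 0 := by exact_mod_cast hp.ne_zero
      have hA'0 : A' ≠ 0 := by
        rintro rfl
        rw [mul_zero] at hA'
        exact hA hA'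
      have hlt : A'.natAbs < n := by
        rw [← hn, hA', Int.natAbs_mul, Int.natAbs_pow, Int.natAbs_natCast]
        have h1 : 1 < p ^ (d - 1) := Nat.one_lt_pow (by omega) hp.one_lt
        have h2 : 0 < A'.natAbs := Int.natAbs_pos.2 hA'0
        nlinarith
      have hpv : IsCoprime (p : ℤ) (v : ℤ) :=
        hAv.of_isCoprime_of_dvd_left ((dvd_pow_self _ (by omega)).trans ⟨A', hA'⟩)
      have hA'v : IsCoprime A' (v : ℤ) :=
        hAv.of_isCoprime_of_dvd_left ⟨(p : ℤ) ^ (d - 1), by rw [hA']; ring⟩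
      have hconj : ∀ (k : ℕ) (x : ℚ), (fun x : ℚ => ((A' : ℚ) * x ^ d + ((p * b : ℤ) : ℚ)) /
          (v : ℚ) ^ 3)^[k] (p * x) = p * (fun x : ℚ => (A * x ^ d + b) / (v : ℚ) ^ 3)^[k] x := by
        intro k
        induction k with
        | zero => intro x; rfl
        | succ k ih =>
          intro x
          rw [Function.iterate_succ_apply, Function.iterate_succ_apply, ← ih]
          congr 1
          rw [hA']
          obtain ⟨e, rfl⟩ : ∃ e, d = e + 1 := ⟨d - 1, by omega⟩
          simp only [Nat.add_sub_cancel]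
          push_cast
          field_simp
          ring
      have h1 := ih A'.natAbs hlt A' rfl (p * b) hA'0 hA'v (hpv.mul_left hbv)
        (T.image fun x => p * x) (by
          intro y hy
          obtain ⟨x, hx, rfl⟩ := mem_image.1 hy
          exact (hT x hx).conj (fun k => hconj k x))
      rwa [card_image_of_injective _ (mul_right_injective₀ hpQ)] at h1

/-- `x ^ d + c` -/
theorem all_c {per : Bool} {d : ℕ} (hd : 4 ≤ d) (h4 : 4 ∣ d) (h3 : 3 ∣ d - 1) (c : ℚ)
    (T : Finset ℚ) (hT : ∀ x ∈ T, Kind per (fun x : ℚ => x ^ d + c) x)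
    (hb : per = false → ∀ p ∈ c.den.primeFactors, p ≠ 2 → 3 ∣ padicValNat p d) :
    T.card ≤ if per then
      2 * 4 ^ (c.den.primeFactors.filter fun p => p ≠ 2 ∧ ¬ 3 ∣ padicValNat p d).card else 4 := by
  classical
  rcases T.eq_empty_or_nonempty with he | ⟨x0, hx0⟩
  · rw [he, card_empty]; exact Nat.zero_le _
  obtain ⟨k, hk⟩ := h3
  set v := x0.den with hv
  have hv0 : 0 < v := x0.den_pos
  have hcd : c.den = v ^ d := den_eq (by omega) (hT x0 hx0).pre
  have hvQ : (v : ℚ) ≠ 0 := by exact_mod_cast hv0.ne'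
  have hcQ : (c.num : ℚ) = c * (v : ℚ) ^ d := by
    have h1 : (c.num : ℚ) / c.den = c := Rat.num_div_den c
    rw [hcd] at h1
    push_cast at h1
    rw [div_eq_iff (pow_ne_zero _ hvQ)] at h1
    exact h1
  have hcop : IsCoprime c.num ((v ^ k : ℕ) : ℤ) := by
    have h1 : IsCoprime c.num (c.den : ℤ) := by
      rw [Int.isCoprime_iff_gcd_eq_one]
      exact c.reduced
    rw [hcd] at h1
    push_cast at h1 ⊢
    exact (IsCoprime.pow_right ((IsCoprime.pow_right_iff (by omega)).1 h1))
  have hconj : ∀ (j : ℕ) (x : ℚ), (fun x : ℚ => (((1 : ℤ) : ℚ) * x ^ d + (c.num : ℚ)) /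
      ((v ^ k : ℕ) : ℚ) ^ 3)^[j] (v * x) = v * (fun x : ℚ => x ^ d + c)^[j] x := by
    intro j
    induction j with
    | zero => intro x; rfl
    | succ j ih =>
      intro x
      rw [Function.iterate_succ_apply, Function.iterate_succ_apply, ← ih]
      congr 1
      push_cast
      have h5 : ((v : ℚ) ^ k) ^ 3 = (v : ℚ) ^ (d - 1) := by
        rw [← pow_mul, hk, Nat.mul_comm]
      rw [hcQ, h5, div_eq_iff (pow_ne_zero _ hvQ)]
      obtain ⟨e, rfl⟩ : ∃ e, d = e + 1 := ⟨d - 1, by omega⟩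
      simp only [Nat.add_sub_cancel]
      ring
  have hvk : 0 < v ^ k := by positivity
  have hsub : bad d (v ^ k) ⊆ c.den.primeFactors.filter fun p => p ≠ 2 ∧ ¬ 3 ∣ padicValNat p d := by
    intro p hp
    obtain ⟨⟨hpp, hpv, -⟩, hp2, hnot⟩ := mem_bad.1 hp
    have := Fact.mk hpp
    have hpv' : p ∣ v := hpp.dvd_of_dvd_pow hpv
    rw [mem_filter, Nat.mem_primeFactors]
    refine ⟨⟨hpp, by rw [hcd]; exact dvd_pow hpv' (by omega), c.den_nz⟩, hp2, ?_⟩
    intro h5
    apply hnot
    refine ⟨h5, ?_⟩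
    rw [padicValNat.pow]
    have h6 : 1 ≤ padicValNat p v := one_le_padicValNat_of_dvd hv0.ne' hpv'
    have h7 : 1 + 2 * padicValNat p d ≤ d := by
      have h8 : p ^ padicValNat p d ∣ d := pow_padicValNat_dvd
      have h9 := Nat.le_of_dvd (by omega) h8
      have h11 : 3 ≤ p := by
        have := hpp.two_le
        omega
      have h12 := Nat.pow_le_pow_left h11 (padicValNat p d)
      have h13 : ∀ j : ℕ, 1 + 2 * j ≤ 3 ^ j := by
        intro j
        induction j with
        | zero => norm_num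
        | succ j ih => rw [pow_succ]; omega
      have h14 := h13 (padicValNat p d)
      omega
    have h10 : k ≤ k * padicValNat p v := Nat.le_mul_of_pos_right _ h6
    omega
  have h1 := all_A (per := per) hd h4 hvk (by
      intro hper
      rw [eq_empty_iff_forall_notMem]
      intro p hp
      have h5 := mem_filter.1 (hsub hp)
      exact h5.2.2 (hb hper p h5.1 h5.2.1)) 1 c.num one_ne_zero isCoprime_one_left hcop
    (T.image fun x => v * x) (by
      intro y hy
      obtain ⟨x, hx, rfl⟩ := mem_image.1 hy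
      exact (hT x hx).conj (fun j => hconj j x))
  rw [card_image_of_injective _ (mul_right_injective₀ hvQ)] at h1
  refine h1.trans ?_
  unfold Bnd
  cases per
  · simp
  · simp only [if_true]
    exact Nat.mul_le_mul_left _ (Nat.pow_le_pow_right (by norm_num) (card_le_card hsub))

end Pool.Agent.W2helper96.QP
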