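import Pool.Agent.W2helper96.QP.Count

/-!
# At most four preperiodic points
-/

set_option autoImplicit false

namespace Pool.Agent.W2helper96.QP

open Finset Pool.Agent.T6.H62.UB Pool.Agent.T6.H62.PP Pool.Agent.T6.H62.PP.G

theorem pow_four_le {d : ℕ} (hd : 4 ≤ d) : (16 : ℤ) ≤ 2 ^ d := by
  calc (16 : ℤ) = 2 ^ 4 := by norm_num
    _ ≤ 2 ^ d := pow_le_pow_right₀ (by norm_num) hd

theorem even_of_four {d : ℕ} (h4 : 4 ∣ d) : Even d :=
  even_iff_two_dvd.2 ((show (2 : ℕ) ∣ 4 by norm_num).trans h4)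

section

variable {d v : ℕ} {b : ℤ} {O : Finset ℤ} {φ : ℤ → ℤ}

/-- No point of level two if there are two periodic points. -/
theorem level_two_false (h : Sys d 1 b (v ^ 3) O φ) (hd : 4 ≤ d) (h4 : 4 ∣ d) (hv : 0 < v)
    (hb : bad d v = ∅) {y w x2 : ℤ} (hy : y ∈ O) (hw : w ∈ O) (pw : Per φ w) (hyw : φ y = -w)
    (hnw : ¬ Per φ (-w)) (hx2 : x2 ∈ O) (px2 : Per φ x2) (hne : x2 ≠ w) : False := by
  classical
  have hde := even_of_four h4
  obtain ⟨x', hx', px', hφx'⟩ := per_pre h hx2 px2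
  have heq := eqn_sub h hy hx'
  have hφne : φ y ≠ φ x' := by
    rw [hyw, hφx']
    intro h1
    exact hnw (h1 ▸ px2)
  have hpne : y ^ d ≠ x' ^ d := fun h1 => hφne (phi_eq_of_pow_eq h hv hy hx' h1)
  have hwx : φ y - φ x' = -(w + x2) := by rw [hyw, hφx']; ring
  have hgoodall : ∀ q : ℕ, q.Prime → ¬ q ∣ v → ¬ (q : ℤ) ∣ y ^ d - x' ^ d := by
    intro q hq hqv hdv
    rw [← heq, hwx] at hdv
    have hqi : Prime (q : ℤ) := Nat.prime_iff_prime_int.1 hq
    rcases hqi.dvd_or_dvd hdv with h5 | h5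
    · exact hqv (Int.natCast_dvd_natCast.1 (hqi.dvd_of_dvd_pow h5))
    · rw [dvd_neg] at h5
      exact (per_good h h4 hv hw hx2 pw px2 hne.symm hq hqv).1 h5
  have hX : ∀ p : ℕ, p.Prime → p ∣ v → ¬ (p : ℤ) ∣ y := fun p hp hpv =>
    not_dvd_of_mem h (by omega) hp hpv hy
  have hc : IsCoprime y x' := coprime_of (v := v) (by rintro rfl; exact hpne rfl) hX
    (fun q hq hqv h1 => hgoodall q hq hqv (h1.trans (dvds h4 y x').2.1))
  have hbad : ∀ p : ℕ, p.Prime → p ≠ 2 → p ∣ v → 3 ∣ padicValNat p d ∧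
      3 ∣ padicValInt p (y ^ d - x' ^ d) := by
    intro p hp hp2 hpv
    have hg := good_of_not_mem hp hpv hv hp2 (by rw [hb]; exact notMem_empty p)
    refine ⟨hg.1, ?_⟩
    rw [val_step h hp hv hy hx' hφne, hwx]
    have h1 := (per_bad h (by omega) h4 hv hw hx2 pw px2 hne.symm hp hp2 hpv hg).2.1
    have h2 : padicValInt p (-(w + x2)) = padicValInt p (w + x2) := by
      unfold padicValInt
      rw [Int.natAbs_neg]
    rw [h2]
    exact dvd_add (dvd_mul_right 3 _) h1
  by_cases h2v : 2 ∣ v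
  · have hodd : ∀ u ∈ O, u % 2 = 1 := by
      intro u hu
      have := not_dvd_of_mem h (by omega) Nat.prime_two h2v hu
      push_cast at this
      omega
    exact fin_even h4 (by omega) hpne hc hX (fun q hq _ => hgoodall q hq) hbad (hodd y hy)
      (hodd x' hx')
  · have hpar : (y + x') % 2 = 1 := by
      have h1 := hgoodall 2 Nat.prime_two h2v
      push_cast at h1
      have h2 : ¬ (2 : ℤ) ∣ y + x' := fun h3 => h1 (h3.trans (dvds h4 y x').2.1)
      omega
    have hor := fin_odd h4 (by omega) hpne hc hX (fun q hq _ => hgoodall q hq) hbad hpar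
    have hv1 : v = 1 := by
      by_contra hv1
      rcases hor with h1 | h1
      · exact ne_zero_of_mem h (by omega) (by omega) hy h1
      · exact ne_zero_of_mem h (by omega) (by omega) hx' h1
    subst hv1
    have hφ : ∀ u ∈ O, φ u = u ^ d + b := by
      intro u hu
      have := eqn' h hu
      simpa using this
    have hPcard := per_card h (by omega) h4 hv
    rw [hb, card_empty, pow_zero, mul_one] at hPcard
    have hPtwo : ∀ z ∈ O, Per φ z → z = w ∨ z = x2 := by
      intro z hz pz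
      by_contra hcon
      push Not at hcon
      have h1 : ({z, w, x2} : Finset ℤ) ⊆ perSet φ O := by
        intro t ht
        simp only [mem_insert, mem_singleton] at ht
        rcases ht with rfl | rfl | rfl
        · exact mem_perSet.2 ⟨hz, pz⟩
        · exact mem_perSet.2 ⟨hw, pw⟩
        · exact mem_perSet.2 ⟨hx2, px2⟩
      have h2 := card_le_card h1
      rw [card_insert_of_notMem (by simp [hcon.1, hcon.2]),
        card_insert_of_notMem (by simp [hne.symm]), card_singleton] at h2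
      omega
    have hw0 : w ≠ 0 := by
      rintro rfl
      exact hnw (by rw [neg_zero]; exact pw)
    have hP' : ∀ z ∈ O, Per φ z → φ z = w ∨ φ z = x2 := fun z hz pz =>
      hPtwo _ (h.maps z hz) (by simpa using pz.iter 1)
    have hb16 := pow_four_le hd
    have hd0 : d ≠ 0 := by omega
    rcases hor with h1 | h1
    · -- `y = 0`
      subst h1
      have e0 := hφ 0 hy
      rw [hyw, zero_pow hd0, zero_add] at e0
      have hx1 : x' = 1 ∨ x' = -1 := Int.isUnit_iff.1 (isCoprime_zero_left.1 hc)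
      have e1 : x2 = 1 + b := by
        rw [← hφx', hφ x' hx']
        rcases hx1 with h2 | h2
        · rw [h2, one_pow]
        · rw [h2, hde.neg_one_pow]
      rcases hPtwo x' hx' px' with h2 | h2
      · rcases hx1 with h3 | h3
        · have hw1 : w = 1 := by rw [← h2, h3]
          have hx20 : x2 = 0 := by omega
          have h5 := hφ x2 hx2
          rw [hx20, zero_pow hd0] at h5
          have h6 := hP' x2 hx2 px2
          rw [hx20] at h6
          omega
        · have hw1 : w = -1 := by rw [← h2, h3]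
          have hx20 : x2 = 2 := by omega
          have h5 := hφ x2 hx2
          have h6 := hP' x2 hx2 px2
          rw [hx20] at h6 h5
          omega
      · rcases hx1 with h3 | h3
        · omega
        · have hw1 : w = 2 := by omega
          have h5 := hφ w hw
          have h6 := hP' w hw pw
          rw [hw1] at h6 h5
          omega
    · -- `x' = 0`
      subst h1
      have hx20 : x2 = 0 := by
        rcases hPtwo 0 hx' px' with h2 | h2
        · exact absurd h2.symm hw0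
        · exact h2.symm
      have e0 := hφ 0 hx'
      rw [hφx', zero_pow hd0, hx20, zero_add] at e0
      have hy1 : y = 1 ∨ y = -1 := Int.isUnit_iff.1 (isCoprime_zero_right.1 hc)
      have e1 : -w = 1 := by
        rw [← hyw, hφ y hy, ← e0, add_zero]
        rcases hy1 with h2 | h2
        · rw [h2, one_pow]
        · rw [h2, hde.neg_one_pow]
      have e2 : φ w = -w := by
        rw [hφ w hw, ← e0, add_zero, e1, show w = -1 by omega, hde.neg_one_pow]
      apply hnw
      rw [← e2]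
      simpa using pw.iter 1

end

/-- A fixed point `w` such that `-w` has a preimage. -/
theorem tail_lemma {d v : ℕ} (hd : 4 ≤ d) (h4 : 4 ∣ d) {A b w y : ℤ} (hA : A ≠ 0) (hv : 0 < v)
    (hAv : IsCoprime A ((v ^ 3 : ℕ) : ℤ)) (hbv : IsCoprime b ((v ^ 3 : ℕ) : ℤ)) (hw0 : w ≠ 0)
    (h1 : ((v ^ 3 : ℕ) : ℤ) * w = A * w ^ d + b) (h2 : ((v ^ 3 : ℕ) : ℤ) * (-w) = A * y ^ d + b)
    (hb : bad d v = ∅) : v = 1 ∧ (w = 1 ∨ w = -1) ∧ A = 2 * w := by
  have hde := even_of_four h4
  set V : ℤ := ((v ^ 3 : ℕ) : ℤ) with hV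
  have hVv : V = (v : ℤ) ^ 3 := by rw [hV]; push_cast; rfl
  have hV0 : V ≠ 0 := by rw [hV]; positivity
  have hwb : w ∣ b := by
    refine ⟨V - A * w ^ (d - 1), ?_⟩
    obtain ⟨e, rfl⟩ : ∃ e, d = e + 1 := ⟨d - 1, by omega⟩
    simp only [Nat.add_sub_cancel]
    rw [pow_succ] at h1
    linear_combination -h1
  have hwV : IsCoprime w V := hbv.of_isCoprime_of_dvd_left hwb
  have hgpos : 0 < Int.gcd y w := Int.gcd_pos_of_ne_zero_right y hw0
  obtain ⟨t, U, htU, hy, hwU⟩ := Int.exists_gcd_one hgpos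
  set g : ℤ := (Int.gcd y w : ℤ) with hg
  have hg0 : g ≠ 0 := by rw [hg]; exact_mod_cast hgpos.ne'
  have hgp : 0 < g := by rw [hg]; exact_mod_cast hgpos
  have htU' : IsCoprime t U := Int.isCoprime_iff_gcd_eq_one.2 htU
  have hU0 : U ≠ 0 := by
    rintro rfl
    rw [zero_mul] at hwU
    exact hw0 hwU
  have hgw : g ∣ w := ⟨U, by rw [hwU]; ring⟩
  -- divide by `g`
  have e1 : A * g ^ (d - 1) * (t ^ d - U ^ d) = -2 * V * U := by
    apply mul_left_cancel₀ hg0
    obtain ⟨e, rfl⟩ : ∃ e, d = e + 1 := ⟨d - 1, by omega⟩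
    simp only [Nat.add_sub_cancel]
    have h3 : A * (y ^ (e + 1) - w ^ (e + 1)) = -2 * V * w := by linear_combination h1 - h2
    rw [hy, hwU, mul_pow, mul_pow] at h3
    linear_combination h3
  have hUcop : IsCoprime U (t ^ d - U ^ d) := by
    have h3 : IsCoprime U (t ^ d) := (htU'.symm).pow_right
    obtain ⟨e, rfl⟩ : ∃ e, d = e + 1 := ⟨d - 1, by omega⟩
    have h4 : t ^ (e + 1) - U ^ (e + 1) = t ^ (e + 1) + U * (-U ^ e) := by ring
    rw [h4]
    exact h3.add_mul_left_right _
  have hUdvd : U ∣ A * g ^ (d - 1) := by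
    apply hUcop.dvd_of_dvd_mul_right
    rw [e1]
    exact dvd_mul_left _ _
  obtain ⟨k, hk⟩ := hUdvd
  have e2 : k * (t ^ d - U ^ d) = -2 * V := by
    apply mul_left_cancel₀ hU0
    rw [hk] at e1
    linear_combination e1
  have hkV : IsCoprime k V := by
    have h3 : IsCoprime (A * g ^ (d - 1)) V :=
      hAv.mul_left ((hwV.of_isCoprime_of_dvd_left hgw).pow_left)
    exact h3.of_isCoprime_of_dvd_left ⟨U, by rw [hk]; ring⟩
  have hk2 : k ∣ 2 := by
    apply hkV.dvd_of_dvd_mul_right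
    exact ⟨-(t ^ d - U ^ d), by linear_combination e2⟩
  have hk0 : k ≠ 0 := by
    rintro rfl
    exact absurd (zero_dvd_iff.1 hk2) (by norm_num)
  have hkcases : (k = 1 ∨ k = -1) ∨ (k = 2 ∨ k = -2) := by
    have h3 : k.natAbs ≤ 2 := Nat.le_of_dvd (by norm_num) (Int.natAbs_dvd_natAbs.2 hk2)
    omega
  have hne0 : t ^ d - U ^ d ≠ 0 := by
    intro h0
    rw [h0, mul_zero] at e2
    exact hV0 (by linarith)
  have hne : t ^ d ≠ U ^ d := sub_ne_zero.1 hne0
  have hX : ∀ p : ℕ, p.Prime → p ∣ v → ¬ (p : ℤ) ∣ t := by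
    intro p hp hpv hpt
    have hpi := Nat.prime_iff_prime_int.1 hp
    have hpV : (p : ℤ) ∣ V := by
      rw [hVv]
      exact (Int.natCast_dvd_natCast.2 hpv).pow (by norm_num)
    have h3 : (p : ℤ) ∣ k * (t ^ d - U ^ d) := by rw [e2]; exact hpV.mul_left _
    rcases hpi.dvd_or_dvd h3 with h5 | h5
    · exact hpi.not_isUnit (hkV.isUnit_of_dvd' h5 hpV)
    · have h6 : (p : ℤ) ∣ t ^ d := hpt.pow (by omega)
      have h7 : (p : ℤ) ∣ U ^ d := (dvd_sub_right h6).1 h5
      exact hpi.not_isUnit (htU'.isUnit_of_dvd' hpt (hpi.dvd_of_dvd_pow h7))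
  have hgood : ∀ q : ℕ, q.Prime → q ≠ 2 → ¬ q ∣ v → ¬ (q : ℤ) ∣ t ^ d - U ^ d := by
    intro q hq hq2 hqv h3
    have hqi := Nat.prime_iff_prime_int.1 hq
    have h5 : (q : ℤ) ∣ -2 * V := by rw [← e2]; exact h3.mul_left _
    rcases hqi.dvd_or_dvd h5 with h6 | h6
    · rw [dvd_neg] at h6
      have h7 : q ∣ 2 := by exact_mod_cast h6
      exact hq2 ((Nat.prime_dvd_prime_iff_eq hq Nat.prime_two).1 h7)
    · rw [hVv] at h6
      exact hqv (Int.natCast_dvd_natCast.1 (hqi.dvd_of_dvd_pow h6))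
  have hbad : ∀ p : ℕ, p.Prime → p ≠ 2 → p ∣ v → 3 ∣ padicValNat p d ∧
      3 ∣ padicValInt p (t ^ d - U ^ d) := by
    intro p hp hp2 hpv
    have := Fact.mk hp
    have hg := good_of_not_mem hp hpv hv hp2 (by rw [hb]; exact notMem_empty p)
    have hp2' : ¬ (p : ℤ) ∣ 2 := by
      intro h6
      have h7 : p ∣ 2 := by exact_mod_cast h6
      exact hp2 ((Nat.prime_dvd_prime_iff_eq hp Nat.prime_two).1 h7)
    refine ⟨hg.1, ?_⟩
    have h3 : padicValInt p (k * (t ^ d - U ^ d)) = padicValInt p (-2 * V) := by rw [e2]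
    rw [padicValInt.mul hk0 hne0, padicValInt.eq_zero_of_not_dvd (fun h4 => hp2' (h4.trans hk2)),
      zero_add, padicValInt.mul (by norm_num) hV0,
      padicValInt.eq_zero_of_not_dvd (show ¬ (p : ℤ) ∣ -2 by rwa [dvd_neg]), zero_add, hV,
      padicValInt.of_nat, padicValNat.pow] at h3
    rw [h3]
    exact dvd_mul_right _ _
  -- parities
  have hpow : ∀ z : ℤ, z % 2 = 1 → z ^ d % 4 = 1 := by
    intro z hz
    obtain ⟨e, rfl⟩ := h4
    obtain ⟨j, rfl⟩ : ∃ j, z = 2 * j + 1 := ⟨z / 2, by omega⟩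
    have h5 : (2 * j + 1) ^ 4 ≡ 1 [ZMOD 4] := by
      rw [Int.modEq_comm]
      exact (Int.modEq_iff_dvd).2 ⟨4 * j ^ 4 + 8 * j ^ 3 + 6 * j ^ 2 + 2 * j, by ring⟩
    have h6 := h5.pow e
    rw [one_pow, ← pow_mul] at h6
    exact h6
  have hpow0 : ∀ z : ℤ, z % 2 = 0 → z ^ d % 2 = 0 := by
    intro z hz
    exact Int.emod_eq_zero_of_dvd ((Int.dvd_of_emod_eq_zero hz).pow (by omega))
  have hpow1 : ∀ z : ℤ, z % 2 = 1 → z ^ d % 2 = 1 := by
    intro z hz
    have := hpow z hz
    omega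
  have hnoteven : ¬ (t % 2 = 0 ∧ U % 2 = 0) := by
    rintro ⟨h5, h6⟩
    exact Int.prime_two.not_isUnit (htU'.isUnit_of_dvd' (Int.dvd_of_emod_eq_zero h5)
      (Int.dvd_of_emod_eq_zero h6))
  by_cases hboth : t % 2 = 1 ∧ U % 2 = 1
  · exfalso
    exact fin_even h4 (by omega) hne htU' hX hgood hbad hboth.1 hboth.2
  · have hpar : (t + U) % 2 = 1 := by omega
    have hE : (t ^ d - U ^ d) % 2 = 1 := by
      have h5 : (t % 2 = 0 ∧ U % 2 = 1) ∨ (t % 2 = 1 ∧ U % 2 = 0) := by omega
      rcases h5 with ⟨h5, h6⟩ | ⟨h5, h6⟩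
      · have := hpow0 t h5
        have := hpow1 U h6
        omega
      · have := hpow1 t h5
        have := hpow0 U h6
        omega
    have hk22 : k = 2 ∨ k = -2 := by
      rcases hkcases with h5 | h5
      · exfalso
        rcases h5 with rfl | rfl <;> omega
      · exact h5
    have ht0 : t = 0 := by
      rcases fin_odd h4 (by omega) hne htU' hX hgood hbad hpar with h5 | h5
      · exact h5
      · exact absurd h5 hU0
    have hU1 : U = 1 ∨ U = -1 := by
      rw [ht0] at htU'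
      exact Int.isUnit_iff.1 (isCoprime_zero_left.1 htU')
    have hUd : U ^ d = 1 := by
      rcases hU1 with h5 | h5
      · rw [h5, one_pow]
      · rw [h5, hde.neg_one_pow]
    rw [ht0, zero_pow (by omega), hUd] at e2
    have hVpos : 0 < V := by rw [hV]; positivity
    have hV1 : V = 1 := by
      rcases hk22 with rfl | rfl <;> omega
    have hk2' : k = 2 := by omega
    have hv1 : v = 1 := by
      rw [hV] at hV1
      have h5 : v ^ 3 = 1 := by exact_mod_cast hV1
      exact (pow_eq_one_iff.1 h5).resolve_right (by norm_num)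
    rw [hk2'] at hk
    have hg1 : g = 1 := by
      by_contra hg1
      have hg2 : 2 ≤ g := by omega
      have h5 : (8 : ℤ) ≤ g ^ (d - 1) := by
        calc (8 : ℤ) = 2 ^ 3 := by norm_num
          _ ≤ 2 ^ (d - 1) := pow_le_pow_right₀ (by norm_num) (by omega)
          _ ≤ g ^ (d - 1) := pow_le_pow_left₀ (by norm_num) hg2 _
      have h6 : |A * g ^ (d - 1)| = 2 := by
        rw [hk]
        rcases hU1 with h7 | h7 <;> rw [h7] <;> norm_num
      rw [abs_mul, abs_of_nonneg (show (0 : ℤ) ≤ g ^ (d - 1) by positivity)] at h6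
      have h7 : 1 ≤ |A| := Int.one_le_abs hA
      nlinarith
    rw [hg1, one_pow, mul_one] at hk
    rw [hg1, mul_one] at hwU
    refine ⟨hv1, by rw [hwU]; exact hU1, ?_⟩
    rw [hk, hwU]; ring

section

variable {d v : ℕ} {A b : ℤ} {O : Finset ℤ} {φ : ℤ → ℤ}

/-- two periodic points, `A = 1` -/
theorem sys_one (h : Sys d 1 b (v ^ 3) O φ) (hd : 4 ≤ d) (h4 : 4 ∣ d) (hv : 0 < v)
    (hev : ∀ u ∈ O, ∃ m n : ℕ, m < n ∧ φ^[m] u = φ^[n] u)
    (hb : bad d v = ∅) (hP : 2 ≤ (perSet φ O).card) : O.card ≤ 4 := by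
  have hPcard := per_card h (by omega) h4 hv
  rw [hb, card_empty, pow_zero, mul_one] at hPcard
  rcases level_two h one_ne_zero (even_of_four h4) (by omega) hev with h1 | ⟨y, w, hy, hw, pw, hyw, hnw⟩
  · omega
  · exfalso
    obtain ⟨x2, hx2, hne⟩ : ∃ x2 ∈ perSet φ O, x2 ≠ w := by
      by_contra hcon
      push Not at hcon
      have : (perSet φ O).card ≤ 1 := card_le_one.2 fun a ha c hc => by
        rw [hcon a ha, hcon c hc]
      omega
    obtain ⟨hx2O, px2⟩ := mem_perSet.1 hx2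
    exact level_two_false h hd h4 hv hb hy hw pw hyw hnw hx2O px2 hne

/-- conjugation by `-1` -/
theorem neg_all (h : Sys d (-1) b (v ^ 3) O φ) (h4 : 4 ∣ d)
    (hev : ∀ u ∈ O, ∃ m n : ℕ, m < n ∧ φ^[m] u = φ^[n] u) :
    ∃ (O' : Finset ℤ) (φ' : ℤ → ℤ), Sys d 1 (-b) (v ^ 3) O' φ' ∧ O'.card = O.card ∧
      (perSet φ O).card ≤ (perSet φ' O').card ∧
      ∀ u ∈ O', ∃ m n : ℕ, m < n ∧ φ'^[m] u = φ'^[n] u := by
  classical
  have hs := neg_sys h (even_of_four h4)
  rw [neg_neg] at hs
  refine ⟨O.image fun u => -u, fun u => -φ (-u), hs,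
    card_image_of_injective _ neg_injective, ?_, ?_⟩
  · have hPn : (perSet φ O).image (fun u : ℤ => -u) ⊆
        perSet (fun u => -φ (-u)) (O.image fun u => -u) := by
      intro u hu
      obtain ⟨w, hw, rfl⟩ := mem_image.1 hu
      obtain ⟨hwO, n, hn, hnw⟩ := mem_perSet.1 hw
      rw [mem_perSet]
      refine ⟨mem_image_of_mem _ hwO, n, hn, ?_⟩
      rw [neg_iter, hnw]
    have h2 := card_le_card hPn
    rwa [card_image_of_injective _ neg_injective] at h2
  · intro u hu
    obtain ⟨w, hw, rfl⟩ := mem_image.1 hu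
    obtain ⟨m, n, hmn, he⟩ := hev w hw
    exact ⟨m, n, hmn, by rw [neg_iter, neg_iter, he]⟩

/-- **Periodic points, all `A`.** -/
theorem sys_per (h : Sys d A b (v ^ 3) O φ) (hd : 4 ≤ d) (h4 : 4 ∣ d) (hv : 0 < v)
    (hev : ∀ u ∈ O, ∃ m n : ℕ, m < n ∧ φ^[m] u = φ^[n] u) :
    (perSet φ O).card ≤ 2 * 4 ^ (bad d v).card := by
  have h6 : 1 ≤ 4 ^ (bad d v).card := Nat.one_le_pow _ _ (by norm_num)
  by_cases hP1 : (perSet φ O).card ≤ 1
  · omega
  · obtain ⟨y1, hy1, y2, hy2, hne⟩ := one_lt_card.1 (show 1 < (perSet φ O).card by omega)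
    obtain ⟨hy1O, py1⟩ := mem_perSet.1 hy1
    obtain ⟨hy2O, py2⟩ := mem_perSet.1 hy2
    rcases unit_of_per h hy1O hy2O py1 py2 hne with hA1 | hA1
    · subst hA1
      exact per_card h (by omega) h4 hv
    · subst hA1
      obtain ⟨O', φ', hs, -, hc, -⟩ := neg_all h h4 hev
      exact hc.trans (per_card hs (by omega) h4 hv)

/-- **Preperiodic points, all `A`.** -/
theorem sys_pre (h : Sys d A b (v ^ 3) O φ) (hA : A ≠ 0) (hd : 4 ≤ d) (h4 : 4 ∣ d) (hv : 0 < v)
    (hev : ∀ u ∈ O, ∃ m n : ℕ, m < n ∧ φ^[m] u = φ^[n] u) (hb : bad d v = ∅) : O.card ≤ 4 := by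
  classical
  have hde := even_of_four h4
  by_cases hP1 : (perSet φ O).card ≤ 1
  · rcases level_two h hA hde (by omega) hev with h1 | ⟨y, w, hy, hw, pw, hyw, hnw⟩
    · omega
    · have hφw : φ w = w := card_le_one.1 hP1 _ (mem_perSet.2 ⟨h.maps w hw, by simpa using pw.iter 1⟩)
        _ (mem_perSet.2 ⟨hw, pw⟩)
      have hw0 : w ≠ 0 := by
        rintro rfl
        exact hnw (by rw [neg_zero]; exact pw)
      have e1 := h.eqn w hw
      rw [hφw] at e1
      have e2 := h.eqn y hy
      rw [hyw] at e2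
      obtain ⟨hv1, hw1, hA2⟩ := tail_lemma hd h4 hA hv h.copA h.copB hw0 e1 e2 hb
      subst hv1
      have hwd : w ^ d = 1 := by
        rcases hw1 with h5 | h5
        · rw [h5, one_pow]
        · rw [h5, hde.neg_one_pow]
      have hbw : b = -w := by
        rw [hwd, hA2] at e1
        push_cast at e1
        linarith
      have hbabs : |b| = 1 := by
        rw [hbw]
        rcases hw1 with h5 | h5 <;> rw [h5] <;> norm_num
      have hle : ∀ u ∈ O, |u| ≤ 2 := by
        intro u hu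
        have h5 := h.abs_le hd hde hA (by positivity) hu
        rw [hbabs] at h5
        push_cast at h5
        linarith
      have hsub : O ⊆ {-1, 0, 1} := by
        intro u hu
        have h5 := hle u hu
        have h6 := hle _ (h.maps u hu)
        have h7 := h.eqn u hu
        rw [hA2, hbw] at h7
        have h8 : ¬ |u| = 2 := by
          intro h9
          have h10 : u ^ d = 2 ^ d := by
            rw [← hde.pow_abs, h9]
          have h11 := pow_four_le hd
          rw [h10] at h7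
          push_cast at h7
          have h12 : φ u = w * (2 * 2 ^ d - 1) := by linarith
          have h13 : |φ u| = 2 * 2 ^ d - 1 := by
            rw [h12, abs_mul]
            rcases hw1 with h14 | h14 <;> rw [h14]
            · rw [abs_one, one_mul, abs_of_nonneg (by linarith)]
            · rw [abs_neg, abs_one, one_mul, abs_of_nonneg (by linarith)]
          linarith
        have h14 : |u| ≤ 1 := by omega
        have h15 := _root_.abs_le.1 h14
        simp only [mem_insert, mem_singleton]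
        omega
      have h9 := card_le_card hsub
      have h10 : ({-1, 0, 1} : Finset ℤ).card = 3 := by decide
      omega
  · obtain ⟨y1, hy1, y2, hy2, hne⟩ := one_lt_card.1 (show 1 < (perSet φ O).card by omega)
    obtain ⟨hy1O, py1⟩ := mem_perSet.1 hy1
    obtain ⟨hy2O, py2⟩ := mem_perSet.1 hy2
    rcases unit_of_per h hy1O hy2O py1 py2 hne with hA1 | hA1
    · subst hA1
      exact sys_one h hd h4 hv hev hb (by omega)
    · subst hA1
      obtain ⟨O', φ', hs, hc1, hc2, hev'⟩ := neg_all h h4 hev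
      rw [← hc1]
      exact sys_one hs hd h4 hv hev' hb (by omega)

end

end Pool.Agent.W2helper96.QP
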