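import Pool.Agent.W2helper96.QP.Val
import Pool.Agent.T6.H62.PP.CntG

/-!
# Pairs of preperiodic points of `(x ^ d + b) / v ^ 3`, `4 ∣ d`
-/

set_option autoImplicit false

namespace Pool.Agent.W2helper96.QP

open Finset Pool.Agent.T6.H62.UB Pool.Agent.T6.H62.PP Pool.Agent.T6.H62.PP.G

/-- The odd primes `p ∣ v` which do not satisfy `3 ∣ v_p (d) < 3 v_p (v)`. All of them divide `d`. -/
def bad (d v : ℕ) : Finset ℕ := v.primeFactors.filter fun p =>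
  p ≠ 2 ∧ ¬ (3 ∣ padicValNat p d ∧ padicValNat p d < 3 * padicValNat p v)

theorem mem_bad {d v p : ℕ} : p ∈ bad d v ↔ (p.Prime ∧ p ∣ v ∧ v ≠ 0) ∧ p ≠ 2 ∧
    ¬ (3 ∣ padicValNat p d ∧ padicValNat p d < 3 * padicValNat p v) := by
  unfold bad
  rw [mem_filter, Nat.mem_primeFactors]

theorem good_of_not_mem {d v p : ℕ} (hp : p.Prime) (hpv : p ∣ v) (hv : 0 < v) (hp2 : p ≠ 2)
    (h : p ∉ bad d v) : 3 ∣ padicValNat p d ∧ padicValNat p d < 3 * padicValNat p v := by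
  by_contra hcon
  exact h (mem_bad.2 ⟨⟨hp, hpv, hv.ne'⟩, hp2, hcon⟩)

section

variable {d v : ℕ} {b : ℤ} {O : Finset ℤ} {φ : ℤ → ℤ}

theorem val_nm (h : Sys d 1 b (v ^ 3) O φ) (hd : 2 ≤ d) (hv : 0 < v)
    {p : ℕ} (hp : p.Prime) (hp2 : p ≠ 2) (hpv : p ∣ v)
    (hg : 3 ∣ padicValNat p d ∧ padicValNat p d < 3 * padicValNat p v) :
    ∀ (N : ℕ) {u w : ℤ}, u ∈ O → w ∈ O → NM φ u w → padicValInt p (u - w) = N → 3 ∣ N := by
  have := Fact.mk hp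
  intro N
  induction N using Nat.strong_induction_on with
  | _ N ih =>
    intro u w hu hw hn hN
    by_cases hdv : (p : ℤ) ∣ u - w
    · have h1 := lte_int hp hp2 hdv (not_dvd_of_mem h hd hp hpv hu) (n := d) (by omega)
        (NM.pow_ne h hv hu hw hn)
      rw [val_step h hp hv hu hw hn.step.ne, hN, Nat.factorization_def _ hp] at h1
      obtain ⟨hg1, hg2⟩ := hg
      have h5 := ih (padicValInt p (φ u - φ w)) (by omega) (h.maps u hu) (h.maps w hw) hn.step rfl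
      omega
    · rw [padicValInt.eq_zero_of_not_dvd hdv] at hN
      rw [← hN]; exact dvd_zero _

theorem val_pow_nm (h : Sys d 1 b (v ^ 3) O φ) (hd : 2 ≤ d) (hv : 0 < v)
    {p : ℕ} (hp : p.Prime) (hp2 : p ≠ 2) (hpv : p ∣ v)
    (hg : 3 ∣ padicValNat p d ∧ padicValNat p d < 3 * padicValNat p v) {u w : ℤ} (hu : u ∈ O)
    (hw : w ∈ O) (hn : NM φ u w) : 3 ∣ padicValInt p (u ^ d - w ^ d) := by
  rw [val_step h hp hv hu hw hn.step.ne]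
  exact dvd_add (dvd_mul_right 3 _)
    (val_nm h hd hv hp hp2 hpv hg _ (h.maps u hu) (h.maps w hw) hn.step rfl)

theorem sq_dvd_psi (h4 : 4 ∣ d) {u w : ℤ} (hne : u ≠ w) : (u ^ 2 + w ^ 2) ∣ Psi d u w := by
  obtain ⟨e, rfl⟩ := h4
  have h1 := psi_mul (4 * e) u w
  obtain ⟨k, hk⟩ : u ^ 4 - w ^ 4 ∣ (u ^ 4) ^ e - (w ^ 4) ^ e := sub_dvd_pow_sub_pow _ _ e
  refine ⟨(u + w) * k, ?_⟩
  apply mul_left_cancel₀ (sub_ne_zero.2 hne)
  rw [h1, pow_mul, pow_mul, hk]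
  ring

/-- periodic pairs at the primes of good reduction -/
theorem per_good (h : Sys d 1 b (v ^ 3) O φ) (h4 : 4 ∣ d) (hv : 0 < v)
    {u w : ℤ} (hu : u ∈ O) (hw : w ∈ O) (pu : Per φ u) (pw : Per φ w) (hne : u ≠ w)
    {q : ℕ} (hq : q.Prime) (hqv : ¬ q ∣ v) : ¬ (q : ℤ) ∣ u + w ∧ ¬ (q : ℤ) ∣ u ^ 2 + w ^ 2 := by
  have h1 := not_dvd_psi_of_per h hv hu hw pu pw hne hq hqv
  have hde : Even d := (show (2 : ℕ) ∣ 4 by norm_num).trans h4 |> even_iff_two_dvd.2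
  exact ⟨fun h2 => h1 (h2.trans (add_dvd_psi hde hne)), fun h2 => h1 (h2.trans (sq_dvd_psi h4 hne))⟩

/-- coprimality from the conditions at the primes -/
theorem coprime_of {X Y : ℤ} (hne : X ≠ Y) (h1 : ∀ p : ℕ, p.Prime → p ∣ v → ¬ (p : ℤ) ∣ X)
    (h2 : ∀ q : ℕ, q.Prime → ¬ q ∣ v → ¬ (q : ℤ) ∣ X + Y) : IsCoprime X Y := by
  apply isCoprime_of_prime_dvd
  · rintro ⟨rfl, rfl⟩
    exact hne rfl
  intro z hz hzX hzY
  have hq : z.natAbs.Prime := Int.prime_iff_natAbs_prime.1 hz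
  by_cases hqv : z.natAbs ∣ v
  · exact h1 _ hq hqv (Int.natAbs_dvd.2 hzX)
  · exact h2 _ hq hqv (Int.natAbs_dvd.2 (dvd_add hzX hzY))

theorem per_coprime (h : Sys d 1 b (v ^ 3) O φ) (hd : 2 ≤ d) (h4 : 4 ∣ d) (hv : 0 < v)
    {u w : ℤ} (hu : u ∈ O) (hw : w ∈ O) (pu : Per φ u) (pw : Per φ w) (hne : u ≠ w) :
    IsCoprime u w :=
  coprime_of hne (fun _ hp hpv => not_dvd_of_mem h hd hp hpv hu)
    (fun _ hq hqv => (per_good h h4 hv hu hw pu pw hne hq hqv).1)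

/-- periodic pairs at the primes of bad reduction -/
theorem per_bad (h : Sys d 1 b (v ^ 3) O φ) (hd : 2 ≤ d) (h4 : 4 ∣ d) (hv : 0 < v)
    {u w : ℤ} (hu : u ∈ O) (hw : w ∈ O) (pu : Per φ u) (pw : Per φ w) (hne : u ≠ w)
    {p : ℕ} (hp : p.Prime) (hp2 : p ≠ 2) (hpv : p ∣ v)
    (hg : 3 ∣ padicValNat p d ∧ padicValNat p d < 3 * padicValNat p v) :
    3 ∣ padicValInt p (u - w) ∧ 3 ∣ padicValInt p (u + w) ∧ 3 ∣ padicValInt p (u ^ 2 + w ^ 2) := by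
  have hn := per_NM pu pw hne
  exact val_three hp hp2 (not_dvd_of_mem h hd hp hpv hu) (by omega) h4
    (NM.pow_ne h hv hu hw hn) (val_pow_nm h hd hv hp hp2 hpv hg hu hw hn) hg.1

end

/-- `X + Y`, `X - Y` and `X ^ 2 + Y ^ 2` divide `X ^ d - Y ^ d` -/
theorem dvds {d : ℕ} (h4 : 4 ∣ d) (X Y : ℤ) :
    X - Y ∣ X ^ d - Y ^ d ∧ X + Y ∣ X ^ d - Y ^ d ∧ X ^ 2 + Y ^ 2 ∣ X ^ d - Y ^ d := by
  obtain ⟨e, rfl⟩ := h4
  have h1 : X ^ 4 - Y ^ 4 ∣ X ^ (4 * e) - Y ^ (4 * e) := by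
    rw [pow_mul, pow_mul]
    exact sub_dvd_pow_sub_pow _ _ e
  refine ⟨sub_dvd_pow_sub_pow _ _ _, ?_, ?_⟩
  · exact dvd_trans ⟨(X - Y) * (X ^ 2 + Y ^ 2), by ring⟩ h1
  · exact dvd_trans ⟨(X - Y) * (X + Y), by ring⟩ h1

section

variable {d v : ℕ} {X Y : ℤ}

theorem fin_vals (h4 : 4 ∣ d) (hd0 : d ≠ 0) (hne : X ^ d ≠ Y ^ d)
    (hX : ∀ p : ℕ, p.Prime → p ∣ v → ¬ (p : ℤ) ∣ X)
    (hgood : ∀ q : ℕ, q.Prime → q ≠ 2 → ¬ q ∣ v → ¬ (q : ℤ) ∣ X ^ d - Y ^ d)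
    (hbad : ∀ p : ℕ, p.Prime → p ≠ 2 → p ∣ v → 3 ∣ padicValNat p d ∧
      3 ∣ padicValInt p (X ^ d - Y ^ d)) {p : ℕ} (hp : p.Prime) (hp2 : p ≠ 2) :
    3 ∣ padicValInt p (X - Y) ∧ 3 ∣ padicValInt p (X + Y) ∧ 3 ∣ padicValInt p (X ^ 2 + Y ^ 2) := by
  by_cases hpv : p ∣ v
  · exact val_three hp hp2 (hX p hp hpv) hd0 h4 hne (hbad p hp hp2 hpv).2 (hbad p hp hp2 hpv).1
  · have h1 := hgood p hp hp2 hpv
    obtain ⟨e1, e2, e3⟩ := dvds h4 X Y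
    refine ⟨?_, ?_, ?_⟩
    · rw [padicValInt.eq_zero_of_not_dvd (fun h5 => h1 (h5.trans e1))]; exact dvd_zero _
    · rw [padicValInt.eq_zero_of_not_dvd (fun h5 => h1 (h5.trans e2))]; exact dvd_zero _
    · rw [padicValInt.eq_zero_of_not_dvd (fun h5 => h1 (h5.trans e3))]; exact dvd_zero _

theorem fin_even (h4 : 4 ∣ d) (hd0 : d ≠ 0) (hne : X ^ d ≠ Y ^ d) (hc : IsCoprime X Y)
    (hX : ∀ p : ℕ, p.Prime → p ∣ v → ¬ (p : ℤ) ∣ X)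
    (hgood : ∀ q : ℕ, q.Prime → q ≠ 2 → ¬ q ∣ v → ¬ (q : ℤ) ∣ X ^ d - Y ^ d)
    (hbad : ∀ p : ℕ, p.Prime → p ≠ 2 → p ∣ v → 3 ∣ padicValNat p d ∧
      3 ∣ padicValInt p (X ^ d - Y ^ d)) (hX2 : X % 2 = 1) (hY2 : Y % 2 = 1) : False := by
  have key := fun (p : ℕ) (hp : p.Prime) (hp2 : p ≠ 2) =>
    fin_vals h4 hd0 hne hX hgood hbad hp hp2
  have hde : Even d := (show (2 : ℕ) ∣ 4 by norm_num).trans h4 |> even_iff_two_dvd.2
  have h5 : (X - Y) % 4 = 0 ∨ (X - -Y) % 4 = 0 := by omega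
  rcases h5 with h5 | h5
  · exact hne (by rw [pair_even hX2 h5 hc (fun p hp hp2 => (key p hp hp2).2.1)
      (fun p hp hp2 => (key p hp hp2).2.2)])
  · have h6 := pair_even hX2 h5 hc.neg_right
      (fun p hp hp2 => by rw [← sub_eq_add_neg]; exact (key p hp hp2).1)
      (fun p hp hp2 => by rw [neg_sq]; exact (key p hp hp2).2.2)
    exact hne (by rw [h6, hde.neg_pow])

theorem fin_odd (h4 : 4 ∣ d) (hd0 : d ≠ 0) (hne : X ^ d ≠ Y ^ d) (hc : IsCoprime X Y)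
    (hX : ∀ p : ℕ, p.Prime → p ∣ v → ¬ (p : ℤ) ∣ X)
    (hgood : ∀ q : ℕ, q.Prime → q ≠ 2 → ¬ q ∣ v → ¬ (q : ℤ) ∣ X ^ d - Y ^ d)
    (hbad : ∀ p : ℕ, p.Prime → p ≠ 2 → p ∣ v → 3 ∣ padicValNat p d ∧
      3 ∣ padicValInt p (X ^ d - Y ^ d)) (hXY : (X + Y) % 2 = 1) : X = 0 ∨ Y = 0 := by
  have key : ∀ p : ℕ, p.Prime → 3 ∣ padicValInt p (X - Y) ∧ 3 ∣ padicValInt p (X + Y) ∧
      3 ∣ padicValInt p (X ^ 2 + Y ^ 2) := by
    intro p hp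
    by_cases hp2 : p = 2
    · subst hp2
      have h1 : ¬ (2 : ℤ) ∣ X - Y := by omega
      have h2 : ¬ (2 : ℤ) ∣ X + Y := by omega
      have h3 : ¬ (2 : ℤ) ∣ X ^ 2 + Y ^ 2 := by
        intro h3
        have h5 : (2 : ℤ) ∣ (X + Y) ^ 2 := by
          have h6 : (X + Y) ^ 2 = (X ^ 2 + Y ^ 2) + 2 * (X * Y) := by ring
          rw [h6]; exact dvd_add h3 (dvd_mul_right _ _)
        exact h2 (Int.prime_two.dvd_of_dvd_pow h5)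
      refine ⟨?_, ?_, ?_⟩
      · rw [padicValInt.eq_zero_of_not_dvd (by exact_mod_cast h1)]; exact dvd_zero _
      · rw [padicValInt.eq_zero_of_not_dvd (by exact_mod_cast h2)]; exact dvd_zero _
      · rw [padicValInt.eq_zero_of_not_dvd (by exact_mod_cast h3)]; exact dvd_zero _
    · exact fin_vals h4 hd0 hne hX hgood hbad hp hp2
  exact pair_odd hXY hc (fun p hp => (key p hp).1) (fun p hp => (key p hp).2.1)
    (fun p hp => (key p hp).2.2)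

end

end Pool.Agent.W2helper96.QP
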