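import Pool.Agent.W2helper96.QP.Final

/-!
# Infinitely many `c` such that `x ^ 4 + c` has exactly four rational preperiodic points

A rational point `(X, Y)` of `Y ^ 2 = X ^ 3 - 4` gives the fixed points `(2 ± Y) / (2 X)`.
-/

set_option autoImplicit false

namespace Pool.Agent.W2helper96.QP

open Finset Pool.Agent.T6.H62.UB

theorem val_add_of_lt {s t : ℚ} (hs : s ≠ 0) (h : padicValRat 2 s < padicValRat 2 t) :
    padicValRat 2 (s + t) = padicValRat 2 s := val_dom hs (Or.inr h)

theorem points (n : ℕ) : ∃ X Y : ℚ, Y ^ 2 = X ^ 3 - 4 ∧ padicValRat 2 X = -(2 * ((n : ℤ) + 1)) := by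
  induction n with
  | zero =>
    refine ⟨785 / 484, 5497 / 10648, by norm_num, ?_⟩
    have h1 : padicValRat 2 (785 : ℚ) = 0 := by
      have : padicValRat 2 ((785 : ℕ) : ℚ) = 0 := by
        rw [padicValRat.of_nat, padicValNat.eq_zero_of_not_dvd (by norm_num)]; rfl
      exact_mod_cast this
    have h2 : padicValRat 2 (484 : ℚ) = 2 := by
      have e1 : padicValRat 2 ((121 : ℕ) : ℚ) = 0 := by
        rw [padicValRat.of_nat, padicValNat.eq_zero_of_not_dvd (by norm_num)]; rfl
      have e2 : padicValRat 2 ((2 : ℚ) ^ 2 * ((121 : ℕ) : ℚ)) = 2 := by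
        rw [padicValRat.mul (by norm_num) (by norm_num), e1, padicValRat.pow,
          show (2 : ℚ) = ((2 : ℕ) : ℚ) by norm_num, padicValRat.self (by norm_num)]
        norm_num
      rw [← e2]; norm_num
    rw [padicValRat.div (by norm_num) (by norm_num), h1, h2]
    norm_num
  | succ n ih =>
    obtain ⟨X, Y, hXY, hv⟩ := ih
    have hX0 : X ≠ 0 := by
      rintro rfl
      rw [padicValRat.zero] at hv
      omega
    have h2 : padicValRat 2 (2 : ℚ) = 1 := by
      have := padicValRat.self (p := 2) (by norm_num)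
      exact_mod_cast this
    have hX3 : padicValRat 2 (X ^ 3) = -(6 * ((n : ℤ) + 1)) := by
      rw [padicValRat.pow, hv]; push_cast; ring
    have e4 : padicValRat 2 (4 : ℚ) = 2 := by
      rw [show (4 : ℚ) = 2 ^ 2 by norm_num, padicValRat.pow, h2]; norm_num
    have e4' : padicValRat 2 (-4 : ℚ) = 2 := by rw [padicValRat.neg, e4]
    have e32 : padicValRat 2 (32 : ℚ) = 5 := by
      rw [show (32 : ℚ) = 2 ^ 5 by norm_num, padicValRat.pow, h2]; norm_num
    have hX30 : X ^ 3 ≠ 0 := pow_ne_zero _ hX0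
    have v1 : padicValRat 2 (X ^ 3 + 32) = -(6 * ((n : ℤ) + 1)) := by
      rw [val_add_of_lt hX30 (by rw [hX3, e32]; omega), hX3]
    have v2 : padicValRat 2 (X ^ 3 + -4) = -(6 * ((n : ℤ) + 1)) := by
      rw [val_add_of_lt hX30 (by rw [hX3, e4']; omega), hX3]
    have n1 : X ^ 3 + 32 ≠ 0 := by
      intro h0
      rw [h0, padicValRat.zero] at v1
      omega
    have n2 : X ^ 3 + -4 ≠ 0 := by
      intro h0
      rw [h0, padicValRat.zero] at v2
      omega
    have hY0 : Y ≠ 0 := by
      rintro rfl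
      apply n2
      linarith
    refine ⟨X * (X ^ 3 + 32) / (4 * (X ^ 3 + -4)), (X ^ 6 - 80 * X ^ 3 - 128) / (8 * Y ^ 3), ?_, ?_⟩
    · have hY2 : X ^ 3 + -4 = Y ^ 2 := by rw [hXY]; ring
      rw [hY2]
      have hX3' : X ^ 3 = Y ^ 2 + 4 := by rw [hXY]; ring
      have hX6 : X ^ 6 = (Y ^ 2 + 4) ^ 2 := by rw [← hX3']; ring
      rw [hX6, hX3']
      have e1 : (X * (Y ^ 2 + 4 + 32) / (4 * Y ^ 2)) ^ 3 =
          (Y ^ 2 + 4) * (Y ^ 2 + 4 + 32) ^ 3 / (4 * Y ^ 2) ^ 3 := by
        rw [div_pow, mul_pow, hX3']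
      rw [e1]
      field_simp
      ring
    · rw [padicValRat.div (mul_ne_zero hX0 n1) (mul_ne_zero (by norm_num) n2),
        padicValRat.mul hX0 n1, padicValRat.mul (by norm_num) n2, hv, v1, v2, e4]
      push_cast
      ring

theorem four_points {X Y : ℚ} (h : Y ^ 2 = X ^ 3 - 4) (hX : X ≠ 0) (hY : Y ≠ 0) (hY2 : Y ^ 2 ≠ 4) :
    {x : ℚ | IsPreperiodic (fun x : ℚ => x ^ 4 + ((2 + Y) / (2 * X) - ((2 + Y) / (2 * X)) ^ 4)) x}.encard
      = 4 ∧ (2 + Y) / (2 * X) ∈ {x : ℚ | IsPreperiodic
        (fun x : ℚ => x ^ 4 + ((2 + Y) / (2 * X) - ((2 + Y) / (2 * X)) ^ 4)) x} ∧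
      (2 - Y) / (2 * X) ∈ {x : ℚ | IsPreperiodic
        (fun x : ℚ => x ^ 4 + ((2 + Y) / (2 * X) - ((2 + Y) / (2 * X)) ^ 4)) x} := by
  classical
  set x := (2 + Y) / (2 * X) with hx
  set y := (2 - Y) / (2 * X) with hy
  have h1 : x + y = 2 / X := by rw [hx, hy]; field_simp; ring
  have h2 : x ^ 2 + y ^ 2 = X / 2 := by
    rw [hx, hy, div_pow, div_pow, ← add_div, div_eq_div_iff (by positivity) (by norm_num)]
    have : (2 + Y) ^ 2 + (2 - Y) ^ 2 = 8 + 2 * Y ^ 2 := by ring
    rw [this, h]
    ring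
  have h3 : (x + y) * (x ^ 2 + y ^ 2) = 1 := by
    rw [h1, h2]; field_simp
  have hxy : x ^ 4 - y ^ 4 = x - y := by linear_combination (x - y) * h3
  have hx0 : x ≠ 0 := by
    rw [hx]
    refine div_ne_zero (fun h5 => hY2 ?_) (by positivity)
    rw [show Y = -2 by linarith]; norm_num
  have hy0 : y ≠ 0 := by
    rw [hy]
    refine div_ne_zero (fun h5 => hY2 ?_) (by positivity)
    rw [show Y = 2 by linarith]; norm_num
  have hxy1 : x ≠ y := by
    intro h5
    have h6 : x - y = Y / X := by rw [hx, hy]; field_simp; ring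
    rw [h5, sub_self] at h6
    exact div_ne_zero hY hX h6.symm
  have hxy2 : x ≠ -y := by
    intro h5
    have h6 : x + y = 0 := by rw [h5]; ring
    rw [h6] at h1
    exact div_ne_zero (by norm_num) hX h1.symm
  set f : ℚ → ℚ := fun z => z ^ 4 + (x - x ^ 4) with hf
  have fx : f x = x := by simp only [hf]; ring
  have fy : f y = y := by simp only [hf]; linear_combination -hxy
  have fnx : f (-x) = x := by simp only [hf]; ring
  have fny : f (-y) = y := by simp only [hf]; linear_combination -hxy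
  have px : IsPreperiodic f x := ⟨0, 1, by norm_num, fx.symm⟩
  have py : IsPreperiodic f y := ⟨0, 1, by norm_num, fy.symm⟩
  have pnx : IsPreperiodic f (-x) := ⟨1, 2, by norm_num, by
    show f (-x) = f (f (-x)); rw [fnx, fx]⟩
  have pny : IsPreperiodic f (-y) := ⟨1, 2, by norm_num, by
    show f (-y) = f (f (-y)); rw [fny, fy]⟩
  refine ⟨le_antisymm ?_ ?_, px, py⟩
  · apply encard_le_of (N := 4)
    intro T hT
    have h5 := all_c (per := false) (d := 4) le_rfl dvd_rfl (by norm_num) (x - x ^ 4) T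
      (fun z hz => by simpa [Kind] using hT z hz) (by
        intro _ p hp hp2
        have hpp := Nat.prime_of_mem_primeFactors hp
        rw [padicValNat.eq_zero_of_not_dvd]
        · exact dvd_zero _
        · intro h6
          have h7 : p ∣ 2 ^ 2 := by norm_num; exact h6
          exact hp2 ((Nat.prime_dvd_prime_iff_eq hpp Nat.prime_two).1 (hpp.dvd_of_dvd_pow h7)))
    simpa using h5
  · have hsub : (({x, -x, y, -y} : Finset ℚ) : Set ℚ) ⊆ {z : ℚ | IsPreperiodic f z} := by
      intro z hz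
      simp only [coe_insert, coe_singleton, Set.mem_insert_iff, Set.mem_singleton_iff] at hz
      rcases hz with rfl | rfl | rfl | rfl
      · exact px
      · exact pnx
      · exact py
      · exact pny
    have h5 := Set.encard_le_encard hsub
    rw [Set.encard_coe_eq_coe_finsetCard] at h5
    have e1 : x ≠ -x := fun h6 => hx0 (by linarith)
    have e2 : y ≠ -y := fun h6 => hy0 (by linarith)
    have e3 : -x ≠ y := fun h6 => hxy2 (by linarith)
    have e4 : -x ≠ -y := fun h6 => hxy1 (by linarith)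
    rw [card_insert_of_notMem (by simp [e1, hxy1, hxy2]),
      card_insert_of_notMem (by simp [e3, hxy1]),
      card_insert_of_notMem (by simp [e2]), card_singleton] at h5
    exact_mod_cast h5

/-- **Infinitely many `c` with exactly four points.** -/
theorem infinite_four :
    {c : ℚ | {x : ℚ | IsPreperiodic (fun x : ℚ => x ^ 4 + c) x}.encard = 4}.Infinite := by
  intro hfin
  -- the sums of two preperiodic points for such parameters
  have hfin2 : (⋃ c ∈ {c : ℚ | {x : ℚ | IsPreperiodic (fun x : ℚ => x ^ 4 + c) x}.encard = 4},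
      (fun q : ℚ × ℚ => q.1 + q.2) '' ({x : ℚ | IsPreperiodic (fun x : ℚ => x ^ 4 + c) x} ×ˢ
        {x : ℚ | IsPreperiodic (fun x : ℚ => x ^ 4 + c) x})).Finite := by
    apply hfin.biUnion
    intro c hc
    have h1 : {x : ℚ | IsPreperiodic (fun x : ℚ => x ^ 4 + c) x}.Finite := by
      apply Set.finite_of_encard_eq_coe (k := 4)
      exact hc
    exact (h1.prod h1).image _
  have hinf : (Set.range fun n : ℕ => 2 / (points n).choose).Infinite := by
    apply Set.infinite_range_of_injective
    intro m n hmn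
    have hm := (points m).choose_spec.choose_spec.2
    have hn := (points n).choose_spec.choose_spec.2
    simp only at hmn
    have hX0 : (points m).choose ≠ 0 := by
      intro h0
      rw [h0, padicValRat.zero] at hm
      omega
    have hX0' : (points n).choose ≠ 0 := by
      intro h0
      rw [h0, padicValRat.zero] at hn
      omega
    have h1 : (points m).choose = (points n).choose := by
      rw [div_eq_div_iff hX0 hX0'] at hmn
      linarith
    rw [h1, hn] at hm
    omega
  apply hinf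
  apply hfin2.subset
  rintro s ⟨n, rfl⟩
  simp only
  set X := (points n).choose with hX
  obtain ⟨Y, hXY, hv⟩ := (points n).choose_spec
  rw [← hX] at hXY hv
  have hX0 : X ≠ 0 := by
    intro h0
    rw [h0, padicValRat.zero] at hv
    omega
  have hX3 : padicValRat 2 (X ^ 3) = -(6 * ((n : ℤ) + 1)) := by
    rw [padicValRat.pow, hv]; push_cast; ring
  have h2 : padicValRat 2 (2 : ℚ) = 1 := by
    have := padicValRat.self (p := 2) (by norm_num)
    exact_mod_cast this
  have hY0 : Y ≠ 0 := by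
    rintro rfl
    have h5 : X ^ 3 = 2 ^ 2 := by linarith
    rw [h5, padicValRat.pow, h2] at hX3
    push_cast at hX3
    omega
  have hY2 : Y ^ 2 ≠ 4 := by
    intro h4
    have h5 : X ^ 3 = 2 ^ 3 := by linarith
    rw [h5, padicValRat.pow, h2] at hX3
    push_cast at hX3
    omega
  obtain ⟨e1, e2, e3⟩ := four_points hXY hX0 hY0 hY2
  rw [Set.mem_iUnion₂]
  refine ⟨_, e1, ⟨((2 + Y) / (2 * X), (2 - Y) / (2 * X)), ⟨e2, e3⟩, ?_⟩⟩
  simp only
  field_simp
  ring

end Pool.Agent.W2helper96.QP
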