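import Pool.Agent.W2helper96.QP.Dio

/-!
# Valuations
-/

set_option autoImplicit false

namespace Pool.Agent.W2helper96.QP

theorem cube_of_val_nat {n : ℕ} (hn : n ≠ 0) (h : ∀ p : ℕ, p.Prime → 3 ∣ padicValNat p n) :
    ∃ m : ℕ, n = m ^ 3 := by
  refine ⟨n.factorization.prod fun p k => p ^ (k / 3), ?_⟩
  conv_lhs => rw [← Nat.prod_factorization_pow_eq_self hn]
  rw [Finsupp.prod, Finsupp.prod, ← Finset.prod_pow]
  apply Finset.prod_congr rfl
  intro p hp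
  have hpp : p.Prime := Nat.prime_of_mem_primeFactors (by simpa using hp)
  have h1 := h p hpp
  rw [← Nat.factorization_def n hpp] at h1
  rw [← pow_mul, Nat.div_mul_cancel h1]

theorem cube_of_val {z : ℤ} (hz : z ≠ 0) (h : ∀ p : ℕ, p.Prime → 3 ∣ padicValInt p z) :
    ∃ y : ℤ, z = y ^ 3 := by
  obtain ⟨m, hm⟩ := cube_of_val_nat (Int.natAbs_ne_zero.2 hz) h
  rcases Int.natAbs_eq z with h1 | h1
  · exact ⟨m, by rw [h1, hm]; push_cast; rfl⟩
  · exact ⟨-m, by rw [h1, hm]; push_cast; ring⟩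

theorem two_cube {z : ℤ} (hz2 : z % 4 = 2) (h : ∀ p : ℕ, p.Prime → p ≠ 2 → 3 ∣ padicValInt p z) :
    ∃ y : ℤ, z = 2 * y ^ 3 := by
  obtain ⟨w, rfl⟩ : ∃ w, z = 2 * w := ⟨z / 2, by omega⟩
  have hw2 : ¬ (2 : ℤ) ∣ w := by omega
  have hw0 : w ≠ 0 := by rintro rfl; exact hw2 (dvd_zero _)
  obtain ⟨y, hy⟩ := cube_of_val hw0 (by
    intro p hp
    have := Fact.mk hp
    by_cases h2 : p = 2
    · subst h2
      rw [padicValInt.eq_zero_of_not_dvd (by exact_mod_cast hw2)]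
      exact dvd_zero _
    · have h1 := h p hp h2
      rw [padicValInt.mul (by norm_num) hw0, padicValInt.eq_zero_of_not_dvd, zero_add] at h1
      · exact h1
      · intro h4
        have h5 : p ∣ 2 := by exact_mod_cast h4
        exact h2 ((Nat.prime_dvd_prime_iff_eq hp Nat.prime_two).1 h5))
  exact ⟨y, by rw [hy]⟩

/-- lifting the exponent -/
theorem lte_int {p : ℕ} (hp : p.Prime) (hp2 : p ≠ 2) {x y : ℤ} (hxy : (p : ℤ) ∣ x - y)
    (hx : ¬ (p : ℤ) ∣ x) {n : ℕ} (hn : n ≠ 0) (hne : x ^ n ≠ y ^ n) :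
    padicValInt p (x ^ n - y ^ n) = padicValInt p (x - y) + padicValNat p n := by
  have := Fact.mk hp
  have hxy' : x ≠ y := by rintro rfl; exact hne rfl
  have h1 := Int.emultiplicity_pow_sub_pow hp (hp.odd_of_ne_two hp2) hxy hx n
  have e1 : ∀ z : ℤ, z ≠ 0 → emultiplicity (p : ℤ) z = (padicValInt p z : ℕ∞) := by
    intro z hz
    rw [padicValInt.of_ne_one_ne_zero hp.one_lt.ne' hz]
    exact (Int.finiteMultiplicity_iff.2 ⟨by simpa using hp.one_lt.ne', hz⟩).emultiplicity_eq_multiplicity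
  rw [e1 _ (sub_ne_zero.2 hne), e1 _ (sub_ne_zero.2 hxy'),
    ← padicValNat_eq_emultiplicity hn] at h1
  exact_mod_cast h1

theorem val_sub {p : ℕ} (hp : p.Prime) (hp2 : p ≠ 2) {x y : ℤ}
    (hx : ¬ (p : ℤ) ∣ x) {n : ℕ} (hn : n ≠ 0) (hne : x ^ n ≠ y ^ n)
    (h3 : 3 ∣ padicValInt p (x ^ n - y ^ n)) (hd : 3 ∣ padicValNat p n) :
    3 ∣ padicValInt p (x - y) := by
  by_cases h : (p : ℤ) ∣ x - y
  · rw [lte_int hp hp2 h hx hn hne] at h3
    exact (Nat.dvd_add_left hd).1 h3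
  · rw [padicValInt.eq_zero_of_not_dvd h]
    exact dvd_zero _

/-- The three factors of `x ^ 4 - y ^ 4`. -/
theorem val_three {p : ℕ} (hp : p.Prime) (hp2 : p ≠ 2) {x y : ℤ}
    (hx : ¬ (p : ℤ) ∣ x) {d : ℕ} (hd0 : d ≠ 0) (h4 : 4 ∣ d) (hne : x ^ d ≠ y ^ d)
    (h3 : 3 ∣ padicValInt p (x ^ d - y ^ d)) (hd : 3 ∣ padicValNat p d) :
    3 ∣ padicValInt p (x - y) ∧ 3 ∣ padicValInt p (x + y) ∧ 3 ∣ padicValInt p (x ^ 2 + y ^ 2) := by
  have := Fact.mk hp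
  obtain ⟨e, rfl⟩ := h4
  have he0 : e ≠ 0 := by rintro rfl; exact hd0 rfl
  have hev : (-y) ^ (4 * e) = y ^ (4 * e) := Even.neg_pow ⟨2 * e, by ring⟩ y
  have hp2' : ¬ p ∣ 2 := fun h5 => hp2 ((Nat.prime_dvd_prime_iff_eq hp Nat.prime_two).1 h5)
  refine ⟨val_sub hp hp2 hx hd0 hne h3 hd, ?_, ?_⟩
  · have h1 := val_sub hp hp2 (y := -y) hx hd0 (by rw [hev]; exact hne) (by rw [hev]; exact h3) hd
    rwa [sub_neg_eq_add] at h1
  · have e1 : (x ^ 2) ^ (2 * e) = x ^ (4 * e) := by rw [← pow_mul]; congr 1; ring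
    have e2 : (-y ^ 2) ^ (2 * e) = y ^ (4 * e) := by
      rw [Even.neg_pow ⟨e, by ring⟩, ← pow_mul]; congr 1; ring
    have hx2 : ¬ (p : ℤ) ∣ x ^ 2 := fun h5 =>
      hx ((Nat.prime_iff_prime_int.1 hp).dvd_of_dvd_pow h5)
    have h5 : padicValNat p (2 * e) = padicValNat p (4 * e) := by
      have h6 : padicValNat p (2 * (2 * e)) = padicValNat p 2 + padicValNat p (2 * e) :=
        padicValNat.mul (by norm_num) (by omega)
      rw [padicValNat.eq_zero_of_not_dvd hp2', zero_add] at h6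
      rw [show 4 * e = 2 * (2 * e) by ring, h6]
    have h1 := val_sub hp hp2 (x := x ^ 2) (y := -y ^ 2) (n := 2 * e) hx2 (by omega)
      (by rw [e1, e2]; exact hne) (by rw [e1, e2]; exact h3) (by rw [h5]; exact hd)
    rwa [sub_neg_eq_add] at h1

/-- two odd integers which agree modulo four -/
theorem pair_even {X Y : ℤ} (hX : X % 2 = 1) (h4 : (X - Y) % 4 = 0) (hc : IsCoprime X Y)
    (h1 : ∀ p : ℕ, p.Prime → p ≠ 2 → 3 ∣ padicValInt p (X + Y))
    (h2 : ∀ p : ℕ, p.Prime → p ≠ 2 → 3 ∣ padicValInt p (X ^ 2 + Y ^ 2)) : X = Y := by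
  obtain ⟨k, hk⟩ : ∃ k, X = Y + 4 * k := ⟨(X - Y) / 4, by omega⟩
  obtain ⟨j, hj⟩ : ∃ j, Y = 2 * j + 1 := ⟨Y / 2, by omega⟩
  obtain ⟨A, hA⟩ := two_cube (by omega) h1
  obtain ⟨B, hB⟩ := two_cube (z := X ^ 2 + Y ^ 2) (by
    have : X ^ 2 + Y ^ 2 = 4 * (2 * j ^ 2 + 2 * j + 4 * k ^ 2 + 2 * k * (2 * j + 1)) + 2 := by
      rw [hk, hj]; ring
    omega) h2
  have hA3 : A ^ 3 = Y + 2 * k := by linarith
  have hAo : ¬ (2 : ℤ) ∣ A := by
    intro h5
    have h6 : (2 : ℤ) ∣ A ^ 3 := h5.pow (by norm_num)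
    omega
  have hX' : X = A ^ 3 + 2 * k := by linarith
  have hY' : Y = A ^ 3 - 2 * k := by linarith
  have h5 := E1 (A := A) (D := 2 * k) (B := B) hAo (by
    have h6 : IsCoprime (A ^ 3) (2 * k) := by
      apply isCoprime_of_prime_dvd
      · rintro ⟨h7, -⟩
        rw [pow_eq_zero_iff (by norm_num)] at h7
        exact hAo (by rw [h7]; exact dvd_zero _)
      intro z hz hz1 hz2
      exact hz.not_isUnit (hc.isUnit_of_dvd' (by rw [hX']; exact dvd_add hz1 hz2)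
        (by rw [hY']; exact dvd_sub hz1 hz2))
    exact (IsCoprime.pow_left_iff (by norm_num)).1 h6) (by
    rw [hX', hY'] at hB
    have : 2 * (A ^ 6 + (2 * k) ^ 2) = 2 * B ^ 3 := by rw [← hB]; ring
    linarith)
  rw [hX', hY', h5]; ring

/-- two integers of different parity -/
theorem pair_odd {X Y : ℤ} (hXY : (X + Y) % 2 = 1) (hc : IsCoprime X Y)
    (h0 : ∀ p : ℕ, p.Prime → 3 ∣ padicValInt p (X - Y))
    (h1 : ∀ p : ℕ, p.Prime → 3 ∣ padicValInt p (X + Y))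
    (h2 : ∀ p : ℕ, p.Prime → 3 ∣ padicValInt p (X ^ 2 + Y ^ 2)) : X = 0 ∨ Y = 0 := by
  obtain ⟨A, hA⟩ := cube_of_val (by omega) h1
  obtain ⟨C, hC⟩ := cube_of_val (by omega) h0
  obtain ⟨B, hB⟩ := cube_of_val (z := X ^ 2 + Y ^ 2) (by
    intro h5
    have h6 : X = 0 := by nlinarith [sq_nonneg X, sq_nonneg Y]
    have h7 : Y = 0 := by nlinarith [sq_nonneg X, sq_nonneg Y]
    omega) h2
  have hAo : ¬ (2 : ℤ) ∣ A := by
    intro h5
    have h6 : (2 : ℤ) ∣ A ^ 3 := h5.pow (by norm_num)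
    omega
  have hCo : ¬ (2 : ℤ) ∣ C := by
    intro h5
    have h6 : (2 : ℤ) ∣ C ^ 3 := h5.pow (by norm_num)
    omega
  have hcAC : IsCoprime A C := by
    apply isCoprime_of_prime_dvd
    · rintro ⟨h7, -⟩
      exact hAo (by rw [h7]; exact dvd_zero _)
    intro z hz hz1 hz2
    have h5 : z ∣ X + Y := by rw [hA]; exact hz1.pow (by norm_num)
    have h6 : z ∣ X - Y := by rw [hC]; exact hz2.pow (by norm_num)
    have hz2' : ¬ z ∣ 2 := by
      intro h7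
      have h8 : (2 : ℤ) ∣ z := (hz.associated_of_dvd Int.prime_two h7).dvd'
      exact hAo (h8.trans hz1)
    have h7 : z ∣ 2 * X := by
      have : 2 * X = (X + Y) + (X - Y) := by ring
      rw [this]; exact dvd_add h5 h6
    have h8 : z ∣ 2 * Y := by
      have : 2 * Y = (X + Y) - (X - Y) := by ring
      rw [this]; exact dvd_sub h5 h6
    exact hz.not_isUnit (hc.isUnit_of_dvd' ((hz.dvd_or_dvd h7).resolve_left hz2')
      ((hz.dvd_or_dvd h8).resolve_left hz2'))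
  have h5 := E2 hAo hCo hcAC (B := B) (by
    have : A ^ 6 + C ^ 6 = (A ^ 3) ^ 2 + (C ^ 3) ^ 2 := by ring
    rw [this, ← hA, ← hC, ← hB]; ring)
  rcases sq_eq_sq_iff_eq_or_eq_neg.1 h5 with h6 | h6
  · right
    rw [h6, ← hC] at hA
    omega
  · left
    rw [h6, Odd.neg_pow (by decide), ← hC] at hA
    omega

end Pool.Agent.W2helper96.QP
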