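import Pool.Agent.W2helper96.QP.Dio5
import Pool.Agent.W2helper96.QP.Val

/-!
# Valuations divisible by an odd number `r`, and pairs of odd integers which agree modulo four
-/

set_option autoImplicit false

namespace Pool.Agent.W2helper96.QP

theorem pow_of_val_nat {r : ℕ} {n : ℕ} (hn : n ≠ 0)
    (h : ∀ p : ℕ, p.Prime → r ∣ padicValNat p n) : ∃ m : ℕ, n = m ^ r := by
  refine ⟨n.factorization.prod fun p k => p ^ (k / r), ?_⟩
  conv_lhs => rw [← Nat.prod_factorization_pow_eq_self hn]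
  rw [Finsupp.prod, Finsupp.prod, ← Finset.prod_pow]
  apply Finset.prod_congr rfl
  intro p hp
  have hpp : p.Prime := Nat.prime_of_mem_primeFactors (by simpa using hp)
  have h1 := h p hpp
  rw [← Nat.factorization_def n hpp] at h1
  rw [← pow_mul, Nat.div_mul_cancel h1]

theorem pow_of_val {r : ℕ} (hr : Odd r) {z : ℤ} (hz : z ≠ 0)
    (h : ∀ p : ℕ, p.Prime → r ∣ padicValInt p z) : ∃ y : ℤ, z = y ^ r := by
  obtain ⟨m, hm⟩ := pow_of_val_nat (Int.natAbs_ne_zero.2 hz) h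
  rcases Int.natAbs_eq z with h1 | h1
  · exact ⟨m, by rw [h1, hm]; push_cast; rfl⟩
  · exact ⟨-m, by rw [h1, hm, hr.neg_pow]; push_cast; rfl⟩

theorem two_pow_of {r : ℕ} (hr : Odd r) {z : ℤ} (hz2 : z % 4 = 2)
    (h : ∀ p : ℕ, p.Prime → p ≠ 2 → r ∣ padicValInt p z) : ∃ y : ℤ, z = 2 * y ^ r := by
  obtain ⟨w, rfl⟩ : ∃ w, z = 2 * w := ⟨z / 2, by omega⟩
  have hw2 : ¬ (2 : ℤ) ∣ w := by omega
  have hw0 : w ≠ 0 := by rintro rfl; exact hw2 (dvd_zero _)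
  obtain ⟨y, hy⟩ := pow_of_val hr hw0 (by
    intro p hp
    have := Fact.mk hp
    by_cases h2 : p = 2
    · subst h2
      rw [padicValInt.eq_zero_of_not_dvd (by exact_mod_cast hw2)]
      exact dvd_zero _
    · have h1 := h p hp h2
      rw [padicValInt.mul (by norm_num) hw0, padicValInt.eq_zero_of_not_dvd, zero_add] at h1
      · exact h1
      · intro h4
        have h5 : p ∣ 2 := by exact_mod_cast h4
        exact h2 ((Nat.prime_dvd_prime_iff_eq hp Nat.prime_two).1 h5))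
  exact ⟨y, by rw [hy]⟩

theorem val_subR {r p : ℕ} (hp : p.Prime) (hp2 : p ≠ 2) {x y : ℤ}
    (hx : ¬ (p : ℤ) ∣ x) {n : ℕ} (hn : n ≠ 0) (hne : x ^ n ≠ y ^ n)
    (h3 : r ∣ padicValInt p (x ^ n - y ^ n)) (hd : r ∣ padicValNat p n) :
    r ∣ padicValInt p (x - y) := by
  by_cases h : (p : ℤ) ∣ x - y
  · rw [lte_int hp hp2 h hx hn hne] at h3
    exact (Nat.dvd_add_left hd).1 h3
  · rw [padicValInt.eq_zero_of_not_dvd h]
    exact dvd_zero _

theorem not_dvd_two {p : ℕ} (hp : p.Prime) (hp2 : p ≠ 2) : ¬ p ∣ 2 := fun h5 =>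
  hp2 ((Nat.prime_dvd_prime_iff_eq hp Nat.prime_two).1 h5)

theorem val_addR {r p : ℕ} (hp : p.Prime) (hp2 : p ≠ 2) {x y : ℤ}
    (hx : ¬ (p : ℤ) ∣ x) {n : ℕ} (hn : n ≠ 0) (he : Even n) (hne : x ^ n ≠ y ^ n)
    (h3 : r ∣ padicValInt p (x ^ n - y ^ n)) (hd : r ∣ padicValNat p n) :
    r ∣ padicValInt p (x + y) := by
  have h1 := val_subR hp hp2 (y := -y) hx hn (by rw [he.neg_pow]; exact hne)
    (by rw [he.neg_pow]; exact h3) hd
  rwa [sub_neg_eq_add] at h1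

/-- `x ^ 2 + y ^ 2`, `4 ∣ n` -/
theorem val_sqR {r p : ℕ} (hp : p.Prime) (hp2 : p ≠ 2) {x y : ℤ}
    (hx : ¬ (p : ℤ) ∣ x) {n : ℕ} (hn : n ≠ 0) (h4 : 4 ∣ n) (hne : x ^ n ≠ y ^ n)
    (h3 : r ∣ padicValInt p (x ^ n - y ^ n)) (hd : r ∣ padicValNat p n) :
    r ∣ padicValInt p (x ^ 2 + y ^ 2) := by
  have := Fact.mk hp
  obtain ⟨e, rfl⟩ := h4
  have e1 : (x ^ 2) ^ (2 * e) = x ^ (4 * e) := by rw [← pow_mul]; congr 1; ring
  have e2 : (y ^ 2) ^ (2 * e) = y ^ (4 * e) := by rw [← pow_mul]; congr 1; ring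
  have hx2 : ¬ (p : ℤ) ∣ x ^ 2 := fun h5 =>
    hx ((Nat.prime_iff_prime_int.1 hp).dvd_of_dvd_pow h5)
  have h6 : padicValNat p (2 * (2 * e)) = padicValNat p 2 + padicValNat p (2 * e) :=
    padicValNat.mul (by norm_num) (by omega)
  rw [padicValNat.eq_zero_of_not_dvd (not_dvd_two hp hp2), zero_add,
    show 2 * (2 * e) = 4 * e by ring] at h6
  exact val_addR hp hp2 (x := x ^ 2) (y := y ^ 2) (n := 2 * e) hx2 (by omega) ⟨e, by ring⟩
    (by rw [e1, e2]; exact hne) (by rw [e1, e2]; exact h3) (by rw [← h6]; exact hd)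

/-- `x ^ 2 - x y + y ^ 2`, `6 ∣ n`, `p ≠ 3` -/
theorem val_phiR {r p : ℕ} (hp : p.Prime) (hp2 : p ≠ 2) (hp3 : p ≠ 3) {x y : ℤ}
    (hx : ¬ (p : ℤ) ∣ x) {n : ℕ} (hn : n ≠ 0) (h6 : 6 ∣ n) (hne : x ^ n ≠ y ^ n)
    (h3 : r ∣ padicValInt p (x ^ n - y ^ n)) (hd : r ∣ padicValNat p n) :
    r ∣ padicValInt p (x ^ 2 - x * y + y ^ 2) := by
  have := Fact.mk hp
  obtain ⟨e, rfl⟩ := h6
  have hev : Even (6 * e) := ⟨3 * e, by ring⟩
  have h1 := val_addR hp hp2 hx hn hev hne h3 hd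
  have e1 : (x ^ 3) ^ (2 * e) = x ^ (6 * e) := by rw [← pow_mul]; congr 1; ring
  have e2 : (y ^ 3) ^ (2 * e) = y ^ (6 * e) := by rw [← pow_mul]; congr 1; ring
  have hx3 : ¬ (p : ℤ) ∣ x ^ 3 := fun h5 =>
    hx ((Nat.prime_iff_prime_int.1 hp).dvd_of_dvd_pow h5)
  have h6 : padicValNat p (3 * (2 * e)) = padicValNat p 3 + padicValNat p (2 * e) :=
    padicValNat.mul (by norm_num) (by omega)
  rw [padicValNat.eq_zero_of_not_dvd (fun h5 => hp3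
    ((Nat.prime_dvd_prime_iff_eq hp Nat.prime_three).1 h5)), zero_add,
    show 3 * (2 * e) = 6 * e by ring] at h6
  have h2 := val_addR (r := r) hp hp2 (x := x ^ 3) (y := y ^ 3) (n := 2 * e) hx3 (by omega)
    ⟨e, by ring⟩ (by rw [e1, e2]; exact hne) (by rw [e1, e2]; exact h3) (by rw [← h6]; exact hd)
  have h7 : x ^ 3 + y ^ 3 ≠ 0 := by
    intro h0
    apply hne
    rw [← e1, ← e2, show x ^ 3 = -y ^ 3 by linarith, Even.neg_pow ⟨e, by ring⟩]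
  have e3 : x ^ 3 + y ^ 3 = (x + y) * (x ^ 2 - x * y + y ^ 2) := by ring
  rw [e3] at h2 h7
  rw [padicValInt.mul (left_ne_zero_of_mul h7) (right_ne_zero_of_mul h7)] at h2
  exact (Nat.dvd_add_right h1).1 h2

/-- The end of the argument for a pair: `X + Y = 2 A ^ r`. -/
theorem halves {r : ℕ} (hr : Odd r) (hr1 : 1 ≤ r) {X Y : ℤ} (hX : X % 2 = 1) (h4 : (X - Y) % 4 = 0)
    (hc : IsCoprime X Y) (h1 : ∀ p : ℕ, p.Prime → p ≠ 2 → r ∣ padicValInt p (X + Y)) :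
    ∃ A D : ℤ, ¬ (2 : ℤ) ∣ A ∧ (2 : ℤ) ∣ D ∧ IsCoprime A D ∧ X = A ^ r + D ∧ Y = A ^ r - D := by
  obtain ⟨k, hk⟩ : ∃ k, X = Y + 4 * k := ⟨(X - Y) / 4, by omega⟩
  obtain ⟨A, hA⟩ := two_pow_of hr (by omega) h1
  have hA3 : A ^ r = Y + 2 * k := by linarith
  have hX' : X = A ^ r + 2 * k := by linarith
  have hY' : Y = A ^ r - 2 * k := by linarith
  have hAo : ¬ (2 : ℤ) ∣ A := by
    intro h5
    have h6 : (2 : ℤ) ∣ A ^ r := h5.pow (by omega)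
    omega
  refine ⟨A, 2 * k, hAo, dvd_mul_right _ _, ?_, hX', hY'⟩
  have h6 : IsCoprime (A ^ r) (2 * k) := by
    apply isCoprime_of_prime_dvd
    · rintro ⟨h7, -⟩
      rw [pow_eq_zero_iff (by omega)] at h7
      exact hAo (by rw [h7]; exact dvd_zero _)
    intro z hz hz1 hz2
    exact hz.not_isUnit (hc.isUnit_of_dvd' (by rw [hX']; exact dvd_add hz1 hz2)
      (by rw [hY']; exact dvd_sub hz1 hz2))
  exact (IsCoprime.pow_left_iff (by omega)).1 h6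

theorem sq_mod_four {A : ℤ} (hA : ¬ (2 : ℤ) ∣ A) : A ^ 2 % 4 = 1 := by
  have := sq_odd hA
  omega

/-- `A ^ 10 + k D ^ 2 = B ^ 5` -/
theorem ten {A D B k : ℤ} (hk : k = 1 ∨ k = 3) (hA : ¬ (2 : ℤ) ∣ A) (hD : (2 : ℤ) ∣ D)
    (hc : IsCoprime A D) (h : A ^ 10 + k * D ^ 2 = B ^ 5) (h3 : ¬ (3 : ℤ) ∣ A ∨ k = 1) : D = 0 := by
  obtain ⟨E, rfl⟩ := hD
  have hA2 := sq_mod_four hA
  have hB5 : B ^ 5 % 4 = 1 := by
    rw [← h]
    have e1 : A ^ 10 % 4 = 1 := by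
      have h5 : (A ^ 2) ^ 5 ≡ 1 ^ 5 [ZMOD 4] := Int.ModEq.pow 5 hA2
      rw [one_pow, ← pow_mul] at h5
      exact h5
    have e2 : A ^ 10 + k * (2 * E) ^ 2 = A ^ 10 + 4 * (k * E ^ 2) := by ring
    omega
  have hB4 : B % 4 = 1 := by
    have h5 : B % 4 = 0 ∨ B % 4 = 1 ∨ B % 4 = 2 ∨ B % 4 = 3 := by omega
    have h6 : ∀ t : ℤ, B % 4 = t → B ^ 5 % 4 = t ^ 5 % 4 := fun t ht => by
      have h7 : B ≡ t [ZMOD 4] := by
        rw [← ht]; exact (Int.mod_modEq B 4).symm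
      exact h7.pow 5
    rcases h5 with h5 | h5 | h5 | h5
    · have := h6 _ h5; norm_num at this; omega
    · exact h5
    · have := h6 _ h5; norm_num at this; omega
    · have := h6 _ h5; norm_num at this; omega
  have hcB : IsCoprime B (A ^ 2) := by
    apply isCoprime_of_prime_dvd
    · rintro ⟨h7, -⟩
      rw [h7] at hB4
      norm_num at hB4
    intro z hz hzB hzA
    have h5 := hz.dvd_of_dvd_pow hzA
    have h6 : z ∣ k * (2 * E) ^ 2 := by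
      have : k * (2 * E) ^ 2 = B ^ 5 - A ^ 10 := by linear_combination h
      rw [this]; exact dvd_sub (hzB.pow (by norm_num)) (h5.pow (by norm_num))
    rcases hz.dvd_or_dvd h6 with h7 | h7
    · rcases hk with rfl | rfl
      · exact hz.not_isUnit (isUnit_of_dvd_one h7)
      · rcases h3 with h8 | h8
        · exact h8 (three_dvd_of hz h7 h5)
        · norm_num at h8
    · exact hz.not_isUnit (hc.isUnit_of_dvd' h5 (hz.dvd_of_dvd_pow h7))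
  have h5 := K5 (hk.imp id Or.inr) (x := B) (y := A ^ 2) (z := 2 * E) (by omega) (by omega) hcB (by
    rw [← h]; ring)
  have h6 : k * (2 * E) ^ 2 = 0 := by
    have : k * (2 * E) ^ 2 = B ^ 5 - A ^ 10 := by linear_combination h
    rw [this, h5]; ring
  rcases mul_eq_zero.1 h6 with h7 | h7
  · rcases hk with rfl | rfl <;> norm_num at h7
  · exact (pow_eq_zero_iff (by norm_num)).1 h7

/-- `4 ∣ d`, `r = 5` -/
theorem pair_four_five {X Y : ℤ} (hX : X % 2 = 1) (h4 : (X - Y) % 4 = 0) (hc : IsCoprime X Y)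
    (h1 : ∀ p : ℕ, p.Prime → p ≠ 2 → 5 ∣ padicValInt p (X + Y))
    (h2 : ∀ p : ℕ, p.Prime → p ≠ 2 → 5 ∣ padicValInt p (X ^ 2 + Y ^ 2)) : X = Y := by
  obtain ⟨A, D, hA, hD, hcAD, hXe, hYe⟩ := halves (by decide) (by norm_num) hX h4 hc h1
  have hXo : ¬ (2 : ℤ) ∣ X := by omega
  have hYo : ¬ (2 : ℤ) ∣ Y := by omega
  obtain ⟨B, hB⟩ := two_pow_of (r := 5) (by decide) (z := X ^ 2 + Y ^ 2) (by
    have := sq_odd hXo
    have := sq_odd hYo
    omega) h2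
  have h5 : A ^ 10 + 1 * D ^ 2 = B ^ 5 := by
    have : 2 * (A ^ 10 + 1 * D ^ 2) = 2 * B ^ 5 := by rw [← hB, hXe, hYe]; ring
    linarith
  have h6 := ten (Or.inl rfl) hA hD hcAD h5 (Or.inr rfl)
  rw [hXe, hYe, h6]; ring

/-- `6 ∣ d`, `r = 3, 5` -/
theorem pair_six {r : ℕ} (hr : r = 3 ∨ r = 5) {X Y : ℤ} (hX : X % 2 = 1) (h4 : (X - Y) % 4 = 0)
    (hc : IsCoprime X Y) (h3 : ¬ (3 : ℤ) ∣ X + Y)
    (h1 : ∀ p : ℕ, p.Prime → p ≠ 2 → r ∣ padicValInt p (X + Y))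
    (h2 : ∀ p : ℕ, p.Prime → p ≠ 2 → r ∣ padicValInt p (X ^ 2 - X * Y + Y ^ 2)) : X = Y := by
  have hro : Odd r := by rcases hr with rfl | rfl <;> decide
  obtain ⟨A, D, hA, hD, hcAD, hXe, hYe⟩ := halves hro
    (by rcases hr with rfl | rfl <;> norm_num) hX h4 hc h1
  have hz : X ^ 2 - X * Y + Y ^ 2 = (A ^ r) ^ 2 + 3 * D ^ 2 := by rw [hXe, hYe]; ring
  have hro2 : ¬ (2 : ℤ) ∣ A ^ r := fun h5 => hA (Int.prime_two.dvd_of_dvd_pow h5)
  have hAr := sq_mod_four hro2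
  obtain ⟨E, rfl⟩ := hD
  have hodd : (X ^ 2 - X * Y + Y ^ 2) % 4 = 1 := by
    rw [hz]
    have : (A ^ r) ^ 2 + 3 * (2 * E) ^ 2 = (A ^ r) ^ 2 + 4 * (3 * E ^ 2) := by ring
    omega
  obtain ⟨B, hB⟩ := pow_of_val hro (z := X ^ 2 - X * Y + Y ^ 2) (by omega) (by
    intro p hp
    by_cases hp2 : p = 2
    · subst hp2
      rw [padicValInt.eq_zero_of_not_dvd]
      · exact dvd_zero _
      · push_cast
        omega
    · exact h2 p hp hp2)
  rw [hz] at hB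
  have h3A : ¬ (3 : ℤ) ∣ A := by
    intro h5
    apply h3
    have : X + Y = 2 * A ^ r := by rw [hXe, hYe]; ring
    rw [this]
    exact (h5.pow (by rcases hr with rfl | rfl <;> norm_num)).mul_left _
  have hE : (2 : ℤ) * E = 0 := by
    rcases hr with rfl | rfl
    · exact E3 (m := A) (n := B) hcAD (by rw [← hB]; ring)
    · exact ten (k := 3) (Or.inr rfl) hA (dvd_mul_right _ _) hcAD (by rw [← hB]; ring) (Or.inl h3A)
  rw [hXe, hYe, hE]; ring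

end Pool.Agent.W2helper96.QP
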